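import Pool.Agent.Lib.FT.SpecE

/-!
# C44, block E, module AG (helper59): alignment, assembly
-/

set_option autoImplicit false

open MeasureTheory

noncomputable section

namespace Pool.Agent.FT

private theorem agMin (m : ℕ) (f : ℕ → ℝ) (hf : ∀ r, r < m → 0 < f r) :
    ∃ κ : ℝ, 0 < κ ∧ κ ≤ 1 ∧ ∀ r, r < m → κ ≤ f r := by
  induction m with
  | zero => exact ⟨1, one_pos, le_refl _, fun r hr => absurd hr (Nat.not_lt_zero r)⟩
  | succ m ih =>
    obtain ⟨κ, h1, h2, h3⟩ := ih fun r hr => hf r (hr.trans (Nat.lt_succ_self m))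
    refine ⟨min κ (f m), lt_min h1 (hf m (Nat.lt_succ_self m)), (min_le_left _ _).trans h2, ?_⟩
    intro r hr
    rcases Nat.lt_succ_iff_lt_or_eq.1 hr with h4 | h4
    · exact (min_le_left _ _).trans (h3 r h4)
    · rw [h4]
      exact min_le_right _ _

private theorem agSmul {D : Type} [CStarAlgebra D] {τ : D →ₗ[ℂ] ℂ} (h : IsState τ) (c : ℝ) (x : D) :
    n2 τ (c • x) = |c| * n2 τ x := by
  have e : c • x = (c : ℂ) • x := (Complex.coe_smul c x).symm
  rw [e, h.n2_smul, Complex.norm_real, Real.norm_eq_abs]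

private theorem agDec {D : Type} [CStarAlgebra D] (K : ℕ) (hF : ∀ r, Continuous (Fp K r))
    (hpsi : Continuous (psi K)) (A : D) (hA : IsSelfAdjoint A) :
    A = algebraMap ℝ D (tj K 0) + ∑ r ∈ Finset.range (K - 1), (1 / (K : ℝ)) • cfc (Fp K r) A +
      cfc (psi K) A := by
  have h1 : cfc (fun x : ℝ => x) A = A := cfc_id' ℝ A
  have h2 : (fun x : ℝ => x) = fun x => (tj K 0 + (∑ r ∈ Finset.range (K - 1),
      fun x => (1 / (K : ℝ)) * Fp K r x) x) + psi K x := by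
    funext x
    rw [Finset.sum_apply]
    unfold psi
    ring
  have hs : Continuous (∑ r ∈ Finset.range (K - 1), fun x => (1 / (K : ℝ)) * Fp K r x) := by
    have e : (∑ r ∈ Finset.range (K - 1), fun x => (1 / (K : ℝ)) * Fp K r x) =
        fun x => ∑ r ∈ Finset.range (K - 1), (1 / (K : ℝ)) * Fp K r x := by
      funext x
      rw [Finset.sum_apply]
    rw [e]
    exact continuous_finsetSum _ fun r _ => continuous_const.mul (hF r)
  conv_lhs => rw [← h1, h2]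
  rw [cfc_add A (fun x => tj K 0 + (∑ r ∈ Finset.range (K - 1),
      fun x => (1 / (K : ℝ)) * Fp K r x) x) (psi K) (continuous_const.add hs).continuousOn
      hpsi.continuousOn,
    cfc_const_add (tj K 0) (∑ r ∈ Finset.range (K - 1),
      fun x => (1 / (K : ℝ)) * Fp K r x) A hs.continuousOn hA,
    cfc_sum (fun r x => (1 / (K : ℝ)) * Fp K r x) A (Finset.range (K - 1))
      (fun r _ => (continuous_const.mul (hF r)).continuousOn)]
  congr 2
  apply Finset.sum_congr rfl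
  intro r _
  exact cfc_const_mul _ _ _ (hF r).continuousOn

private theorem agPN {D : Type} [CStarAlgebra D] {d : ℕ}
    (ι : C(Fin d → unitInterval, ℂ) →⋆ₐ[ℂ] D) (v : ℕ → D) : Monotone (PN ι v) := by
  intro N M h
  apply StarSubalgebra.topologicalClosure_mono
  apply sup_le_sup_left
  apply StarAlgebra.adjoin_mono
  rintro x ⟨k, hk, rfl⟩
  exact ⟨k, hk.trans_le h, rfl⟩

private theorem agV {D : Type} [CStarAlgebra D] {d : ℕ}
    (ι : C(Fin d → unitInterval, ℂ) →⋆ₐ[ℂ] D) (v : ℕ → D) {k N : ℕ} (h : k < N) :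
    v k ∈ PN ι v N := by
  apply StarSubalgebra.le_topologicalClosure
  apply (le_sup_right : _ ≤ ι.range ⊔ _)
  exact StarAlgebra.subset_adjoin ℂ _ ⟨k, h, rfl⟩

private theorem agI {D : Type} [CStarAlgebra D] {d : ℕ}
    (ι : C(Fin d → unitInterval, ℂ) →⋆ₐ[ℂ] D) (v : ℕ → D) (N : ℕ) (f) :
    ι f ∈ PN ι v N := by
  apply StarSubalgebra.le_topologicalClosure
  apply (le_sup_left : _ ≤ ι.range ⊔ _)
  exact ⟨f, rfl⟩

private theorem agN1 {D : Type} [CStarAlgebra D] {u : D} (hu : star u * u = 1) : ‖u‖ ≤ 1 := by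
  have e4 : ‖u‖ * ‖u‖ = ‖(1 : D)‖ := by
    rw [← CStarRing.norm_star_mul_self, hu]
  have e5 : ‖(1 : D)‖ ≤ 1 := by
    have e6 : ‖(1 : D)‖ * ‖(1 : D)‖ = ‖(1 : D)‖ := by
      rw [← CStarRing.norm_star_mul_self, star_one, one_mul]
    rcases eq_or_ne ‖(1 : D)‖ 0 with e7 | e7
    · rw [e7]; exact zero_le_one
    · exact (mul_left_cancel₀ e7 (by rw [e6, mul_one])).le
  have e8 := norm_nonneg u
  nlinarith

theorem pAG (hS1 : S_S1) (hV : S_V) (hPN : S_PN) (hMIX : S_MIX) (hHAAR : S_HAAR) (hUNI : S_UNI)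
    (hFR : S_FR) (hCFI : S_CFI) (hTP : S_TP) (hTT : S_TT) : S_AG := by
  intro d R hR κ₁ hκ₁
  obtain ⟨K, hK⟩ : ∃ K : ℕ, K = R ^ d := ⟨_, rfl⟩
  have hK1 : 1 ≤ K := by rw [hK]; exact Nat.one_le_pow _ _ hR
  have hK1' : (1 : ℝ) ≤ (K : ℝ) := by exact_mod_cast hK1
  obtain ⟨f1, f2, f3, f4, f5, f6, f7, f8, f9, f10, f11, f12, f13, f14, f15, f16, f17⟩ := hFR K hK1
  have hS := fun r => hS1 (tj K r + 1 / (4 * (K : ℝ))) (tj K (r + 1) - 1 / (4 * (K : ℝ)))
    (Fm K r) (Fp K r) (f12 r) (f4 r) (f3 r) (f7 r) (f6 r) (f11 r) (f8 r) (κ₁ / 4) (by positivity)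
  choose κr hκr hS using hS
  obtain ⟨κ, hκ, hκ1, hκle⟩ := agMin (K - 1) κr fun r _ => hκr r
  obtain ⟨w, hw, hwκ, hwK⟩ : ∃ w : ℝ, 0 < w ∧ w ≤ κ ∧ 4 * (K : ℝ) * w ≤ (κ₁ / 8) ^ 2 := by
    refine ⟨min κ ((κ₁ / 8) ^ 2 / (4 * (K : ℝ))), lt_min hκ (by positivity), min_le_left _ _, ?_⟩
    have h1 := min_le_right κ ((κ₁ / 8) ^ 2 / (4 * (K : ℝ)))
    rw [le_div_iff₀ (by positivity)] at h1
    linarith
  refine ⟨min κ ((κ₁ / 16) ^ 2), lt_min hκ (by positivity), ?_⟩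
  intro c h θ η hη hcell D _ _ _ τ ι v hsys
  have hTT' := hTT d R hR c h θ η hcell D τ ι v hsys
  rw [← hK] at hTT'
  obtain ⟨i1, i2, i3, i4, i5, i6⟩ := hCFI
  obtain ⟨t1, t2, t3, t4⟩ := i4 d D ι h
  have hT0 := t2 hcell.h0
  have hT1 := t3 hcell.h1
  have hTn : ‖ι (toC h)‖ ≤ 1 :=
    t4 1 (fun p => abs_le.2 ⟨by linarith [hcell.h0 p], hcell.h1 p⟩)
  -- the algebra generated by `v 0`, `v 1`
  obtain ⟨E, hE⟩ : ∃ E : StarSubalgebra ℂ D,
      E = (StarAlgebra.adjoin ℂ {x | ∃ k, k < 2 ∧ x = v k}).topologicalClosure := ⟨_, rfl⟩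
  have hEc : IsClosed (E : Set D) := by
    rw [hE]
    exact StarSubalgebra.isClosed_topologicalClosure _
  have hEP : E ≤ PN ι v 2 := by
    rw [hE]
    exact StarSubalgebra.topologicalClosure_mono le_sup_right
  have hEr : E ≤ (StarAlgebra.adjoin ℂ (Set.range v)).topologicalClosure := by
    rw [hE]
    apply StarSubalgebra.topologicalClosure_mono
    apply StarAlgebra.adjoin_mono
    rintro x ⟨k, _, rfl⟩
    exact ⟨k, rfl⟩
  have hvE : ∀ k, k < 2 → v k ∈ E := by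
    intro k hk
    rw [hE]
    exact StarSubalgebra.le_topologicalClosure _ (StarAlgebra.subset_adjoin ℂ _ ⟨k, hk, rfl⟩)
  have hv2 : ∀ i j, star (v i * v j) * (v i * v j) = 1 := by
    intro i j
    rw [star_mul, hsys.sa, hsys.sa, mul_assoc, ← mul_assoc (v i), hsys.sq, one_mul, hsys.sq]
  have hv3 : ∀ i j, (v i * v j) * star (v i * v j) = 1 := by
    intro i j
    rw [star_mul, hsys.sa, hsys.sa, mul_assoc, ← mul_assoc (v j), hsys.sq, one_mul, hsys.sq]
  obtain ⟨T₀, hT₀E, hT₀0, hT₀1, hT₀f⟩ := hUNI D τ hsys.tr E (v 0 * v 1) hEc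
    (mul_mem (hvE 0 (by norm_num)) (hvE 1 (by norm_num))) (hv2 0 1) (hv3 0 1)
    (hHAAR d D τ ι v hsys)
  obtain ⟨-, -, a3, a4, -⟩ := hTT' 1 (by simp) (by simp)
  obtain ⟨T', hT'E, hT'0, hT'1, hT'a, hT'b⟩ := hTP D τ hsys.tr E T₀ hEc hT₀E hT₀0 hT₀1 hT₀f K
    (fun r => ∫ p, Fp K r (h p)) w hK1 hw a3 a4
  have hT's : star T' = T' := IsSelfAdjoint.of_nonneg hT'0
  have hT'n : ‖T'‖ ≤ 1 := (CStarAlgebra.norm_le_one_iff_of_nonneg T' hT'0).2 hT'1
  obtain ⟨N, u, hu, hu1, hu2, hcomm, hskew⟩ := hV D τ hsys.tr (fun N => PN ι v (N + 2))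
    (fun N M h => agPN ι v (Nat.add_le_add_right h 2))
    (fun N => StarSubalgebra.isClosed_topologicalClosure _) (ι (toC h)) T' (agI ι v _ _)
    (agPN ι v (Nat.le_add_left 2 0) (hEP hT'E)) t1 hT's hTn hT'n κ hκ
  have hsysN := hPN d D τ ι v hsys (N + 2)
  have hmix := hMIX D τ (PN ι v (N + 2)) (fun j => v (N + 2 + j)) hsys.tr hsysN
  obtain ⟨g, hg⟩ : ∃ g : D, g = v (N + 2 + 0) * v (N + 2 + 1) := ⟨_, rfl⟩
  have hgn : ‖g‖ ≤ 1 := by
    rw [hg]
    exact agN1 (hv2 _ _)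
  have hgP : g ∈ PN ι v (N + 2 + 2) := by
    rw [hg]
    exact mul_mem (agV ι v (by omega)) (agV ι v (by omega))
  have hT'P : T' ∈ PN ι v (N + 2) := agPN ι v (Nat.le_add_left 2 N) (hEP hT'E)
  obtain ⟨A, hA⟩ : ∃ A : D, A = u * ι (toC h) * star u := ⟨_, rfl⟩
  have hAP : A ∈ PN ι v (N + 2) := by
    rw [hA]
    exact mul_mem (mul_mem hu (agI ι v _ _)) (star_mem hu)
  have hA01 := i5 D u (ι (toC h)) hu1 hu2 hT0 hT1
  rw [← hA] at hA01
  have hTTu := hTT' u hu1 hu2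
  rw [← hA] at hTTu hcomm hskew
  obtain ⟨b1, b2, -, -, b5⟩ := hTTu
  have hηκ : η ≤ κ := hη.trans (min_le_left _ _)
  have hηκ' : η ≤ (κ₁ / 16) ^ 2 := hη.trans (min_le_right _ _)
  -- the threshold functions
  have hmain : ∀ r, r < K - 1 → n2 τ (cfc (Fp K r) A - cfc (Fp K r) T') ≤ κ₁ / 4 := by
    intro r hr
    have hκr' := hκle r hr
    obtain ⟨c1, c2⟩ := hT'a r hr
    refine hS r D τ hsys.tr (PN ι v (N + 2)) g (StarSubalgebra.isClosed_topologicalClosure _) hgn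
      (fun x hx y hy => by rw [hg]; exact hmix x hx y hy) A hAP T' hT'P hA01.1 hA01.2 hT'0 hT'1
      (hcomm.trans hκr') ?_ ?_ ?_ ?_
    · intro a ha b hb ha1 hb1 K' hK'
      refine (hskew K' ?_ ?_ ?_).trans hκr'
      · rw [hK']
        have h1 : a * g * b ∈ PN ι v (N + 2 + 2) :=
          mul_mem (mul_mem (agPN ι v (Nat.le_add_right _ 2) ha) hgP)
            (agPN ι v (Nat.le_add_right _ 2) hb)
        exact SMulMemClass.smul_mem _ (sub_mem h1 (star_mem h1))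
      · rw [hK', star_smul, star_sub, star_star]
        have e1 : star (1 / 2 : ℂ) = 1 / 2 := by
          rw [Complex.star_def, map_div₀, map_one, map_ofNat]
        rw [e1, ← smul_neg, neg_sub]
      · rw [hK', norm_smul]
        have h1 : ‖a * g * b‖ ≤ 1 := by
          calc ‖a * g * b‖ ≤ ‖a * g‖ * ‖b‖ := norm_mul_le _ _
            _ ≤ 1 * 1 := mul_le_mul ((norm_mul_le _ _).trans
                (mul_le_one₀ ha1 (norm_nonneg _) hgn)) hb1 (norm_nonneg _) zero_le_one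
            _ = 1 := one_mul 1
        have h2 := norm_sub_le (a * g * b) (star (a * g * b))
        rw [norm_star] at h2
        have h3 : ‖(1 / 2 : ℂ)‖ = 1 / 2 := by
          rw [norm_div, norm_one, Complex.norm_ofNat]
        rw [h3]
        linarith
    · have := b1 r
      linarith
    · linarith
    · have := b2 r
      rw [this, abs_sub_comm]
      linarith
  refine ⟨N, u, hu, hu1, hu2, T', hT'P, hEr hT'E, hT'0, hT'1, ?_⟩
  rw [← hA]
  have dA := agDec K f3 f5 A (IsSelfAdjoint.of_nonneg hA01.1)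
  have dT := agDec K f3 f5 T' (IsSelfAdjoint.of_nonneg hT'0)
  have e1 : A - T' = ∑ r ∈ Finset.range (K - 1), (1 / (K : ℝ)) •
      (cfc (Fp K r) A - cfc (Fp K r) T') + (cfc (psi K) A - cfc (psi K) T') := by
    conv_lhs => rw [dA, dT]
    simp only [smul_sub, Finset.sum_sub_distrib]
    abel
  rw [e1]
  have hst := hsys.tr.state
  have n1 : n2 τ (∑ r ∈ Finset.range (K - 1), (1 / (K : ℝ)) •
      (cfc (Fp K r) A - cfc (Fp K r) T')) ≤ κ₁ / 4 := by
    refine (hst.n2_sum_le _ _).trans ?_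
    have n2' : ∀ r ∈ Finset.range (K - 1), n2 τ ((1 / (K : ℝ)) •
        (cfc (Fp K r) A - cfc (Fp K r) T')) ≤ (1 / (K : ℝ)) * (κ₁ / 4) := by
      intro r hr
      rw [agSmul hst, abs_of_nonneg (by positivity)]
      exact mul_le_mul_of_nonneg_left (hmain r (Finset.mem_range.1 hr)) (by positivity)
    refine (Finset.sum_le_sum n2').trans ?_
    rw [Finset.sum_const, Finset.card_range, nsmul_eq_mul]
    have h1 : ((K - 1 : ℕ) : ℝ) ≤ K := by exact_mod_cast Nat.sub_le K 1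
    have h2 : (K : ℝ) * ((1 / (K : ℝ)) * (κ₁ / 4)) = κ₁ / 4 := by
      field_simp
    exact (mul_le_mul_of_nonneg_right h1 (by positivity)).trans h2.le
  have n3 : n2 τ (cfc (psi K) A) ≤ κ₁ / 8 := by
    have h1 : n2 τ (cfc (psi K) A) ^ 2 ≤ (κ₁ / 8) ^ 2 := b5.trans (by nlinarith)
    exact (pow_le_pow_iff_left₀ (n2_nonneg _ _) (by positivity) two_ne_zero).1 h1
  have n4 : n2 τ (cfc (psi K) T') ≤ κ₁ / 8 := by
    have h1 : n2 τ (cfc (psi K) T') ^ 2 ≤ (κ₁ / 8) ^ 2 := hT'b.trans hwK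
    exact (pow_le_pow_iff_left₀ (n2_nonneg _ _) (by positivity) two_ne_zero).1 h1
  have n5 := hst.n2_add_le (∑ r ∈ Finset.range (K - 1), (1 / (K : ℝ)) •
      (cfc (Fp K r) A - cfc (Fp K r) T')) (cfc (psi K) A - cfc (psi K) T')
  have n6 := hst.n2_sub_le (cfc (psi K) A) (cfc (psi K) T')
  linarith

end Pool.Agent.FT
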