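import Pool.Agent.Lib.FT.SpecE

/-!
# C44, block E, CELL: cells of the cube from digits
-/

set_option autoImplicit false

open MeasureTheory

noncomputable section

namespace Pool.Agent.FT

private theorem cell_geom (d : ℕ) (R : ℝ) : ∑ m : Fin d, R ^ (m : ℕ) * (R - 1) = R ^ d - 1 := by
  rw [← Finset.sum_mul, Fin.sum_univ_eq_sum_range (fun i => R ^ i) d]
  exact geom_sum_mul R d

theorem pCELL (hDIG : S_DIG) : S_CELL := by
  intro d R hR
  have hR0 : (0 : ℝ) < R := by exact_mod_cast hR
  have hR1 : (1 : ℝ) ≤ R := by exact_mod_cast hR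
  have hmem : ∀ k : Fin R, ((k : ℕ) : ℝ) / R ∈ Set.Icc (0 : ℝ) 1 := by
    intro k
    have : ((k : ℕ) : ℝ) < R := by exact_mod_cast k.2
    exact ⟨by positivity, by rw [div_le_one hR0]; exact this.le⟩
  refine ⟨fun j m => ⟨((finFunctionFinEquiv.symm j m : ℕ) : ℝ) / R, hmem _⟩, ?_⟩
  intro η hη
  have hd1 : (0 : ℝ) < (d : ℝ) + 1 := by positivity
  obtain ⟨D, β, hD, hβ, hint, hgood⟩ := hDIG R hR (η / ((d : ℝ) + 1)) (by positivity)
  set h : C(Cube d, ℝ) := ⟨fun p => (2 * (∑ m : Fin d, (R : ℝ) ^ (m : ℕ) * D (p m)) + 1) /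
    (2 * (R : ℝ) ^ d), by
      refine Continuous.div_const ?_ _
      refine Continuous.add (Continuous.mul continuous_const ?_) continuous_const
      exact continuous_finsetSum _ (fun m _ => continuous_const.mul
        (D.continuous.comp (continuous_apply m)))⟩ with hh
  set θ : C(Cube d, ℝ) := ⟨fun p => min 1 (∑ m : Fin d, β (p m)),
    continuous_const.min (continuous_finsetSum _ (fun m _ =>
      β.continuous.comp (continuous_apply m)))⟩ with hθ
  have hhx : ∀ p, h p = (2 * (∑ m : Fin d, (R : ℝ) ^ (m : ℕ) * D (p m)) + 1) /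
    (2 * (R : ℝ) ^ d) := fun p => rfl
  have hθx : ∀ p, θ p = min 1 (∑ m : Fin d, β (p m)) := fun p => rfl
  have hsum0 : ∀ p : Cube d, 0 ≤ ∑ m : Fin d, (R : ℝ) ^ (m : ℕ) * D (p m) := fun p =>
    Finset.sum_nonneg (fun m _ => mul_nonneg (by positivity) (hD _).1)
  refine ⟨h, θ, ?_, ?_, ?_, ?_, ?_, ?_⟩
  · intro p
    rw [hhx]
    have := hsum0 p
    positivity
  · intro p
    rw [hhx, div_le_one (by positivity)]
    have h1 : ∑ m : Fin d, (R : ℝ) ^ (m : ℕ) * D (p m) ≤ (R : ℝ) ^ d - 1 := by
      rw [← cell_geom d R]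
      exact Finset.sum_le_sum (fun m _ => mul_le_mul_of_nonneg_left (hD _).2 (by positivity))
    linarith
  · intro p
    rw [hθx]
    exact le_min zero_le_one (Finset.sum_nonneg (fun m _ => (hβ _).1))
  · intro p
    exact min_le_left _ _
  · have hev : ∀ m : Fin d, MeasurePreserving (fun p : Cube d => p m) volume volume :=
      fun m => measurePreserving_eval (fun _ : Fin d => (volume : Measure unitInterval)) m
    have hi : ∀ m : Fin d, Integrable (fun p : Cube d => β (p m)) := fun m =>
      Continuous.integrable_of_hasCompactSupport (β.continuous.comp (continuous_apply m))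
        (HasCompactSupport.of_compactSpace _)
    have heq : ∀ m : Fin d, ∫ p : Cube d, β (p m) = ∫ x, β x := by
      intro m
      have h1 := (hev m).map_eq
      rw [← h1, integral_map (hev m).measurable.aemeasurable
        β.continuous.aestronglyMeasurable]
    calc ∫ p, θ p ≤ ∫ p : Cube d, ∑ m : Fin d, β (p m) := by
          refine integral_mono (Continuous.integrable_of_hasCompactSupport θ.continuous
            (HasCompactSupport.of_compactSpace _)) (integrable_finsetSum _ (fun m _ => hi m)) ?_
          intro p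
          exact min_le_right _ _
      _ = ∑ m : Fin d, ∫ p : Cube d, β (p m) := integral_finsetSum _ (fun m _ => hi m)
      _ = (d : ℝ) * ∫ x, β x := by
          rw [Finset.sum_congr rfl (fun m _ => heq m), Finset.sum_const, Finset.card_univ,
            Fintype.card_fin, nsmul_eq_mul]
      _ ≤ (d : ℝ) * (η / ((d : ℝ) + 1)) := by gcongr
      _ ≤ η := by
          rw [mul_div_assoc', div_le_iff₀ hd1]
          nlinarith
  · intro p hp
    rw [hθx] at hp
    have hs : ∑ m : Fin d, β (p m) < 1 := by
      by_contra hc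
      rw [not_lt] at hc
      rw [min_eq_left hc] at hp
      exact lt_irrefl _ hp
    have hm : ∀ m, β (p m) < 1 := fun m => lt_of_le_of_lt
      (Finset.single_le_sum (f := fun m => β (p m)) (fun i _ => (hβ _).1) (Finset.mem_univ m)) hs
    choose k hk1 hk2 using fun m => hgood (p m) (hm m)
    refine ⟨finFunctionFinEquiv k, ?_, ?_⟩
    · rw [hhx]
      unfold tj
      rw [finFunctionFinEquiv_apply]
      push_cast
      have : ∑ m : Fin d, (R : ℝ) ^ (m : ℕ) * D (p m) =
          ∑ m : Fin d, ((k m : ℕ) : ℝ) * (R : ℝ) ^ (m : ℕ) :=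
        Finset.sum_congr rfl (fun m _ => by rw [hk1 m, mul_comm])
      rw [this]
    · intro m
      simp only [Equiv.symm_apply_apply]
      exact hk2 m

end Pool.Agent.FT
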