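import Pool.Agent.Lib.FT.SpecE

/-!
# C44, (E9) Facts about the functional calculus
-/

set_option autoImplicit false

open MeasureTheory

noncomputable section

namespace Pool.Agent.FT

private theorem star_toC {X : Type} [TopologicalSpace X] (h : C(X, ℝ)) :
    star (toC h) = toC h := by
  ext p
  simp [toC]

private theorem sa_toC {X : Type} [TopologicalSpace X] (h : C(X, ℝ)) :
    IsSelfAdjoint (toC h) := star_toC h

private theorem cfc_toC {d : ℕ} (h : C(Cube d, ℝ)) (F : C(ℝ, ℝ)) :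
    cfc (fun z : ℂ => ((F z.re : ℝ) : ℂ)) (toC h) = toC (F.comp h) := by
  have hc : Continuous (fun z : ℂ => ((F z.re : ℝ) : ℂ)) := by fun_prop
  have hn : IsStarNormal (toC h) := (sa_toC h).isStarNormal
  ext p
  have h2 : (ContinuousMap.evalStarAlgHom ℂ ℂ p) (toC h) = algebraMap ℂ ℂ ((h p : ℝ) : ℂ) := rfl
  have h1 := StarAlgHomClass.map_cfc (R := ℂ) (S := ℂ) (ContinuousMap.evalStarAlgHom ℂ ℂ p)
    (fun z : ℂ => ((F z.re : ℝ) : ℂ)) (toC h) hc.continuousOn
    (by exact continuous_eval_const p) hn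
    (by rw [h2]; infer_instance)
  rw [h2, cfc_algebraMap] at h1
  exact h1

private theorem cfi1 {d : ℕ} (D : Type) [CStarAlgebra D] (ι : C(Cube d, ℂ) →⋆ₐ[ℂ] D)
    (h : C(Cube d, ℝ)) (F : C(ℝ, ℝ)) :
    cfc (fun x => F x) (ι (toC h)) = ι (toC (F.comp h)) := by
  have hc : Continuous (fun z : ℂ => ((F z.re : ℝ) : ℂ)) := by fun_prop
  have hn : IsStarNormal (toC h) := (sa_toC h).isStarNormal
  have hs : IsSelfAdjoint (ι (toC h)) := (sa_toC h).map ι
  have hn' : IsStarNormal (ι (toC h)) := hs.isStarNormal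
  rw [← cfc_toC, cfc_real_eq_complex (fun x => F x) hs]
  exact (StarAlgHomClass.map_cfc (R := ℂ) (S := ℂ) ι (fun z : ℂ => ((F z.re : ℝ) : ℂ)) (toC h)
    hc.continuousOn (AddMonoidHomClass.continuous_of_bound ι 1 (fun x => by
      simpa using NonUnitalStarAlgHom.norm_apply_le ι x)) hn hn').symm

private theorem cfi2 (D : Type) [CStarAlgebra D] (u T : D) (F : ℝ → ℝ) (hF : Continuous F)
    (h1 : star u * u = 1) (h2 : u * star u = 1) (hT : star T = T) :
    cfc F (u * T * star u) = u * cfc F T * star u := by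
  have hu : u ∈ unitary D := ⟨h1, h2⟩
  have h3 := StarAlgHomClass.map_cfc (R := ℝ) (S := ℂ) (Unitary.conjStarAlgAut ℂ D ⟨u, hu⟩)
    F T hF.continuousOn (by
      have : Continuous (fun x : D => u * x * star u) := by fun_prop
      exact this) hT (by
      have : IsSelfAdjoint (u * T * star u) := by
        rw [isSelfAdjoint_iff, star_mul, star_mul, star_star, hT, mul_assoc]
      exact this)
  exact h3.symm

private theorem toC_add {X : Type} [TopologicalSpace X] (f g : C(X, ℝ)) :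
    toC (f + g) = toC f + toC g := by
  ext p
  simp [toC]

private theorem toC_mul {X : Type} [TopologicalSpace X] (f g : C(X, ℝ)) :
    toC (f * g) = toC f * toC g := by
  ext p
  simp [toC]

private theorem toC_one {X : Type} [TopologicalSpace X] : toC (1 : C(X, ℝ)) = 1 := by
  ext p
  simp [toC]

private theorem cfi4a {d : ℕ} (D : Type) [CStarAlgebra D] [PartialOrder D] [StarOrderedRing D]
    (ι : C(Cube d, ℂ) →⋆ₐ[ℂ] D) (h : C(Cube d, ℝ)) (hh : ∀ p, 0 ≤ h p) : 0 ≤ ι (toC h) := by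
  let s : C(Cube d, ℝ) := ⟨fun p => Real.sqrt (h p), by fun_prop⟩
  have e : h = s * s := by
    ext p
    simp [s, Real.mul_self_sqrt (hh p)]
  have e2 : ι (toC h) = star (ι (toC s)) * ι (toC s) := by
    rw [← map_star, star_toC, ← map_mul, ← toC_mul, ← e]
  rw [e2]
  exact star_mul_self_nonneg _

private theorem cfi4b {d : ℕ} (D : Type) [CStarAlgebra D] [PartialOrder D] [StarOrderedRing D]
    (ι : C(Cube d, ℂ) →⋆ₐ[ℂ] D) (h : C(Cube d, ℝ)) (hh : ∀ p, h p ≤ 1) : ι (toC h) ≤ 1 := by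
  have h1 := cfi4a D ι (1 - h) (fun p => by
    have := hh p
    simp only [ContinuousMap.sub_apply, ContinuousMap.one_apply]
    linarith)
  have h2 : ι (toC (1 - h)) + ι (toC h) = 1 := by
    rw [← map_add, ← toC_add, sub_add_cancel, toC_one, map_one]
  rw [← h2]
  exact le_add_of_nonneg_left h1

private theorem cfi4c {d : ℕ} (D : Type) [CStarAlgebra D]
    (ι : C(Cube d, ℂ) →⋆ₐ[ℂ] D) (h : C(Cube d, ℝ)) (c : ℝ) (hh : ∀ p, |h p| ≤ c) :
    ‖ι (toC h)‖ ≤ c := by
  refine (NonUnitalStarAlgHom.norm_apply_le ι (toC h)).trans ?_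
  have hc : 0 ≤ c := (abs_nonneg _).trans (hh (fun _ => 0))
  rw [ContinuousMap.norm_le _ hc]
  intro p
  have : ‖(toC h) p‖ = |h p| := by
    simp [toC]
  rw [this]
  exact hh p

theorem pCFI : S_CFI := by
  refine ⟨fun d D _ ι h F => cfi1 D ι h F, fun D _ u T F hF h1 h2 hT => cfi2 D u T F hF h1 h2 hT,
    ?_, ?_, ?_, ?_⟩
  · intro D _ E T F hF hE hT hTs
    have : IsClosed (E : Set D) := hE
    exact cfc_mem F hT
  · intro d D _ _ _ ι h
    refine ⟨?_, cfi4a D ι h, cfi4b D ι h, cfi4c D ι h⟩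
    rw [← map_star, star_toC]
  · intro D _ _ _ u T h1 h2 h3 h4
    refine ⟨star_right_conjugate_nonneg h3 u, ?_⟩
    have := star_right_conjugate_le_conjugate h4 u
    rwa [mul_one, h2] at this
  · intro d D _ τ ι v hS u h F h1 h2
    rw [cfi2 D u (ι (toC h)) (fun x => F x) F.continuous h1 h2
      (by rw [← map_star, star_toC]), cfi1, hS.tr.conj h1, hS.leb]
    exact integral_ofReal

end Pool.Agent.FT
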