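import Pool.Agent.Lib.FT.SpecE

/-!
# C44, block E, DIG: digit function on the interval
-/

set_option autoImplicit false

open MeasureTheory

noncomputable section

namespace Pool.Agent.FT

private def trap (y : ℝ) : ℝ := max 0 (min 1 (min (y + 1) (2 - y)))

private theorem trap_cont : Continuous trap := by
  unfold trap
  fun_prop

private theorem trap_nonneg (y : ℝ) : 0 ≤ trap y := le_max_left _ _

private theorem trap_le (y : ℝ) : trap y ≤ 1 := max_le zero_le_one (min_le_left _ _)

private theorem trap_one {y : ℝ} (h0 : 0 ≤ y) (h1 : y ≤ 1) : trap y = 1 := by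
  unfold trap
  rw [min_eq_left (le_min (by linarith) (by linarith)), max_eq_right zero_le_one]

private theorem trap_zero {y : ℝ} (h : y < -1 ∨ 2 < y) : trap y = 0 := by
  unfold trap
  refine max_eq_left ?_
  rcases h with h | h
  · exact (min_le_right _ _).trans ((min_le_left _ _).trans (by linarith))
  · exact (min_le_right _ _).trans ((min_le_right _ _).trans (by linarith))

private theorem ramp_cont : Continuous ramp := by
  unfold ramp
  fun_prop

private theorem ramp_zero {y : ℝ} (h : y ≤ 0) : ramp y = 0 := by
  unfold ramp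
  exact max_eq_left ((min_le_right _ _).trans h)

private theorem ramp_one {y : ℝ} (h : 1 ≤ y) : ramp y = 1 := by
  unfold ramp
  rw [min_eq_left h, max_eq_right zero_le_one]

private theorem trap_int (c w : ℝ) (hw : 0 < w) :
    ∫ x : unitInterval, trap (((x : ℝ) - c) / w) ≤ 3 * w := by
  set S : Set unitInterval := {x | c - w ≤ (x : ℝ) ∧ (x : ℝ) ≤ c + 2 * w} with hS
  have hSm : MeasurableSet S := by
    have : S = (fun x : unitInterval => (x : ℝ)) ⁻¹' (Set.Icc (c - w) (c + 2 * w)) := by
      ext x; simp [hS]
    rw [this]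
    exact measurable_subtype_coe measurableSet_Icc
  have h1 : ∫ x : unitInterval, trap (((x : ℝ) - c) / w) ≤
      ∫ x : unitInterval, S.indicator (fun _ => (1 : ℝ)) x := by
    refine integral_mono ?_ ((integrable_const _).indicator hSm) ?_
    · refine Continuous.integrable_of_hasCompactSupport ?_ (HasCompactSupport.of_compactSpace _)
      exact trap_cont.comp (by fun_prop)
    · intro x
      change trap (((x : ℝ) - c) / w) ≤ S.indicator (fun _ => (1 : ℝ)) x
      by_cases hx : x ∈ S
      · rw [Set.indicator_of_mem hx]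
        exact trap_le _
      · rw [Set.indicator_of_notMem hx]
        refine (trap_zero ?_).le
        have : ¬ (c - w ≤ (x : ℝ) ∧ (x : ℝ) ≤ c + 2 * w) := hx
        rw [not_and_or, not_le, not_le] at this
        rcases this with h | h
        · left
          rw [div_lt_iff₀ hw]
          linarith
        · right
          rw [lt_div_iff₀ hw]
          linarith
  refine h1.trans ?_
  rw [integral_indicator_const _ hSm, smul_eq_mul, mul_one, Measure.real]
  have h2 : (volume S) ≤ ENNReal.ofReal (3 * w) := by
    rw [unitInterval.volume_apply]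
    have h3 : Subtype.val '' S ⊆ Set.Icc (c - w) (c + 2 * w) := by
      rintro _ ⟨x, hx, rfl⟩
      exact hx
    refine (measure_mono h3).trans ?_
    rw [Real.volume_Icc]
    exact ENNReal.ofReal_le_ofReal (by linarith)
  exact ENNReal.toReal_le_of_le_ofReal (by linarith) h2

theorem pDIG : S_DIG := by
  intro R hR η hη
  have hR0 : (0 : ℝ) < R := by exact_mod_cast hR
  have hR1 : ((R - 1 : ℕ) : ℝ) = (R : ℝ) - 1 := by
    rw [Nat.cast_sub hR, Nat.cast_one]
  set w : ℝ := min (1 / (4 * R)) (η / (3 * R)) with hw
  have hwpos : 0 < w := lt_min (by positivity) (by positivity)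
  have hw2 : w ≤ η / (3 * R) := min_le_right _ _
  set D : C(unitInterval, ℝ) := ⟨fun x => ∑ k ∈ Finset.range (R - 1),
    ramp (((x : ℝ) - ((k : ℝ) + 1) / R) / w),
    continuous_finsetSum _ (fun k _ => ramp_cont.comp (by fun_prop))⟩ with hD
  set β : C(unitInterval, ℝ) := ⟨fun x => min 1 (∑ k ∈ Finset.range (R - 1),
    trap (((x : ℝ) - ((k : ℝ) + 1) / R) / w)),
    continuous_const.min (continuous_finsetSum _ (fun k _ => trap_cont.comp (by fun_prop)))⟩
    with hβ
  have hDx : ∀ x, D x = ∑ k ∈ Finset.range (R - 1), ramp (((x : ℝ) - ((k : ℝ) + 1) / R) / w) :=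
    fun x => rfl
  have hβx : ∀ x, β x = min 1 (∑ k ∈ Finset.range (R - 1),
    trap (((x : ℝ) - ((k : ℝ) + 1) / R) / w)) := fun x => rfl
  refine ⟨D, β, ?_, ?_, ?_, ?_⟩
  · intro x
    rw [hDx]
    constructor
    · exact Finset.sum_nonneg (fun k _ => le_max_left _ _)
    · calc ∑ k ∈ Finset.range (R - 1), ramp (((x : ℝ) - ((k : ℝ) + 1) / R) / w)
          ≤ ∑ k ∈ Finset.range (R - 1), (1 : ℝ) :=
            Finset.sum_le_sum (fun k _ => max_le zero_le_one (min_le_left _ _))
        _ = (R : ℝ) - 1 := by
          rw [Finset.sum_const, Finset.card_range, nsmul_eq_mul, mul_one, hR1]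
  · intro x
    rw [hβx]
    exact ⟨le_min zero_le_one (Finset.sum_nonneg (fun k _ => trap_nonneg _)), min_le_left _ _⟩
  · have hint : ∀ k : ℕ, Integrable
        (fun x : unitInterval => trap (((x : ℝ) - ((k : ℝ) + 1) / R) / w)) := fun k =>
      Continuous.integrable_of_hasCompactSupport (trap_cont.comp (by fun_prop))
        (HasCompactSupport.of_compactSpace _)
    calc ∫ x, β x ≤ ∫ x : unitInterval, ∑ k ∈ Finset.range (R - 1),
          trap (((x : ℝ) - ((k : ℝ) + 1) / R) / w) := by
          refine integral_mono (Continuous.integrable_of_hasCompactSupport β.continuous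
            (HasCompactSupport.of_compactSpace _)) (integrable_finsetSum _ (fun k _ => hint k)) ?_
          intro x
          exact min_le_right _ _
      _ = ∑ k ∈ Finset.range (R - 1), ∫ x : unitInterval,
          trap (((x : ℝ) - ((k : ℝ) + 1) / R) / w) := integral_finsetSum _ (fun k _ => hint k)
      _ ≤ ∑ k ∈ Finset.range (R - 1), (3 * w) :=
          Finset.sum_le_sum (fun k _ => trap_int _ w hwpos)
      _ = ((R : ℝ) - 1) * (3 * w) := by
          rw [Finset.sum_const, Finset.card_range, nsmul_eq_mul, hR1]
      _ ≤ R * (3 * w) := by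
          refine mul_le_mul_of_nonneg_right (by linarith) (by positivity)
      _ ≤ R * (3 * (η / (3 * R))) := by gcongr
      _ = η := by field_simp
  · intro x hx
    rw [hβx] at hx
    have hsum : ∑ k ∈ Finset.range (R - 1), trap (((x : ℝ) - ((k : ℝ) + 1) / R) / w) < 1 := by
      by_contra hc
      rw [not_lt] at hc
      rw [min_eq_left hc] at hx
      exact lt_irrefl _ hx
    have hout : ∀ k ∈ Finset.range (R - 1), (x : ℝ) < ((k : ℝ) + 1) / R ∨
        ((k : ℝ) + 1) / R + w < (x : ℝ) := by
      intro k hk
      by_contra hc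
      rw [not_or, not_lt, not_lt] at hc
      have h1 : trap (((x : ℝ) - ((k : ℝ) + 1) / R) / w) = 1 := by
        refine trap_one (div_nonneg (by linarith) hwpos.le) ?_
        rw [div_le_one hwpos]
        linarith
      have h2 := Finset.single_le_sum (f := fun k : ℕ => trap (((x : ℝ) - ((k : ℝ) + 1) / R) / w))
        (fun i _ => trap_nonneg _) hk
      rw [h1] at h2
      linarith
    have hx0 : (0 : ℝ) ≤ x := x.2.1
    have hx1 : (x : ℝ) ≤ 1 := x.2.2
    classical
    have hex : ∃ k : ℕ, (R : ℝ) * x ≤ (k : ℝ) + 1 := by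
      refine ⟨R - 1, ?_⟩
      rw [hR1]
      nlinarith
    have hk0 := Nat.find_spec hex
    have hk1 : Nat.find hex ≤ R - 1 := Nat.find_min' hex (by rw [hR1]; nlinarith)
    have hkm : ∀ k, k < Nat.find hex → (k : ℝ) + 1 < (R : ℝ) * x := fun k hk =>
      not_le.1 (Nat.find_min hex hk)
    set k0 := Nat.find hex with hk0def
    have hval : ∀ k ∈ Finset.range (R - 1), ramp (((x : ℝ) - ((k : ℝ) + 1) / R) / w) =
        if k < k0 then (1 : ℝ) else 0 := by
      intro k hk
      split_ifs with hlt
      · have h1 := hkm k hlt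
        have h2 : ((k : ℝ) + 1) / R < x := by
          rw [div_lt_iff₀ hR0]
          linarith
        have h3 : ((k : ℝ) + 1) / R + w < (x : ℝ) := by
          rcases hout k hk with h | h
          · linarith
          · exact h
        refine ramp_one ?_
        rw [le_div_iff₀ hwpos]
        linarith
      · have h1 : (k0 : ℝ) ≤ (k : ℝ) := by exact_mod_cast not_lt.1 hlt
        have h2 : (x : ℝ) ≤ ((k : ℝ) + 1) / R := by
          rw [le_div_iff₀ hR0]
          linarith
        refine ramp_zero (div_nonpos_of_nonpos_of_nonneg (by linarith) hwpos.le)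
    have hk0R : k0 < R := by omega
    refine ⟨⟨k0, hk0R⟩, ?_, ?_⟩
    · rw [hDx, Finset.sum_congr rfl hval, Finset.sum_boole]
      have : (Finset.range (R - 1)).filter (fun k => k < k0) = Finset.range k0 := by
        ext k
        simp only [Finset.mem_filter, Finset.mem_range]
        omega
      rw [this, Finset.card_range]
    · have h1 : (k0 : ℝ) ≤ R * x := by
        rcases Nat.eq_zero_or_pos k0 with h | h
        · rw [h]
          simp only [Nat.cast_zero]
          positivity
        · have h2 := hkm (k0 - 1) (by omega)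
          rw [Nat.cast_sub h, Nat.cast_one] at h2
          linarith
      have h2 : (x : ℝ) - (k0 : ℝ) / R = (R * x - k0) / R := by field_simp
      change |(x : ℝ) - (k0 : ℝ) / R| ≤ 1 / R
      rw [h2, abs_div, abs_of_pos hR0, abs_of_nonneg (by linarith)]
      gcongr
      linarith

end Pool.Agent.FT
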