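import Pool.Agent.Lib.FT.SpecE

/-!
# C44, block E7: threshold functions
-/

set_option autoImplicit false

noncomputable section

namespace Pool.Agent.FT

private theorem fr_ramp_cont : Continuous ramp := by
  unfold ramp
  fun_prop

private theorem fr_ramp_bd (x : ℝ) : 0 ≤ ramp x ∧ ramp x ≤ 1 := by
  unfold ramp
  exact ⟨le_max_left _ _, max_le zero_le_one (min_le_left _ _)⟩

private theorem fr_ramp_zero {x : ℝ} (hx : x ≤ 0) : ramp x = 0 := by
  unfold ramp
  exact max_eq_left ((min_le_right _ _).trans hx)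

private theorem fr_ramp_one {x : ℝ} (hx : 1 ≤ x) : ramp x = 1 := by
  unfold ramp
  rw [min_eq_left hx]
  exact max_eq_right zero_le_one

private theorem fr_ramp_mono {x y : ℝ} (h : x ≤ y) : ramp x ≤ ramp y := by
  unfold ramp
  exact max_le_max le_rfl (min_le_min le_rfl h)

private theorem fr_tj_sub (K : ℕ) (hK : 1 ≤ K) (i j : ℕ) :
    tj K j - tj K i = ((j : ℝ) - (i : ℝ)) / (K : ℝ) := by
  have h : (K : ℝ) ≠ 0 := by positivity
  unfold tj
  field_simp
  ring

private theorem fr_tj_le (K : ℕ) (hK : 1 ≤ K) {i j : ℕ} (h : i ≤ j) : tj K i ≤ tj K j := by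
  have hK0 : (0 : ℝ) < (K : ℝ) := by positivity
  have h1 := fr_tj_sub K hK i j
  have h2 : 0 ≤ ((j : ℝ) - (i : ℝ)) / (K : ℝ) := by
    apply div_nonneg _ hK0.le
    have : (i : ℝ) ≤ (j : ℝ) := by exact_mod_cast h
    linarith
  linarith

private theorem fr_tj_lt (K : ℕ) (hK : 1 ≤ K) {i j : ℕ} (h : i + 1 ≤ j) :
    tj K i + 1 / (K : ℝ) ≤ tj K j := by
  have hK0 : (0 : ℝ) < (K : ℝ) := by positivity
  have h1 := fr_tj_sub K hK i j
  have h2 : 1 / (K : ℝ) ≤ ((j : ℝ) - (i : ℝ)) / (K : ℝ) := by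
    apply div_le_div_of_nonneg_right _ hK0.le
    have : (i : ℝ) + 1 ≤ (j : ℝ) := by exact_mod_cast h
    linarith
  linarith

private theorem fr_quarter (K : ℕ) (hK : 1 ≤ K) :
    1 / (4 * (K : ℝ)) ≤ 1 / (K : ℝ) := by
  have hK0 : (0 : ℝ) < (K : ℝ) := by positivity
  apply one_div_le_one_div_of_le hK0
  linarith

private theorem fr_Fp_zero (K : ℕ) (hK : 1 ≤ K) (r : ℕ) (x : ℝ)
    (hx : x ≤ tj K (r + 1) - 1 / (4 * (K : ℝ))) : Fp K r x = 0 := by
  have hK0 : (0 : ℝ) < (K : ℝ) := by positivity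
  unfold Fp
  apply fr_ramp_zero
  have h1 : 4 * (K : ℝ) * (x - tj K (r + 1)) ≤ 4 * (K : ℝ) * (-(1 / (4 * (K : ℝ)))) := by
    apply mul_le_mul_of_nonneg_left _ (by positivity)
    linarith
  have h2 : 4 * (K : ℝ) * (-(1 / (4 * (K : ℝ)))) = -1 := by
    field_simp
  linarith

private theorem fr_Fp_one (K : ℕ) (hK : 1 ≤ K) (r : ℕ) (x : ℝ)
    (hx : tj K (r + 1) ≤ x) : Fp K r x = 1 := by
  have hK0 : (0 : ℝ) < (K : ℝ) := by positivity
  unfold Fp
  apply fr_ramp_one
  have h1 : 0 ≤ 4 * (K : ℝ) * (x - tj K (r + 1)) := by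
    apply mul_nonneg (by positivity)
    linarith
  linarith

private theorem fr_Fm_one (K : ℕ) (hK : 1 ≤ K) (r : ℕ) (x : ℝ)
    (hx : x ≤ tj K r) : Fm K r x = 1 := by
  have hK0 : (0 : ℝ) < (K : ℝ) := by positivity
  unfold Fm
  apply fr_ramp_one
  have h1 : 0 ≤ 4 * (K : ℝ) * (tj K r - x) := by
    apply mul_nonneg (by positivity)
    linarith
  have h2 : 4 * (K : ℝ) * (x - tj K r) = -(4 * (K : ℝ) * (tj K r - x)) := by ring
  linarith

private theorem fr_Fm_zero (K : ℕ) (hK : 1 ≤ K) (r : ℕ) (x : ℝ)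
    (hx : tj K r + 1 / (4 * (K : ℝ)) ≤ x) : Fm K r x = 0 := by
  have hK0 : (0 : ℝ) < (K : ℝ) := by positivity
  unfold Fm
  apply fr_ramp_zero
  have h1 : 4 * (K : ℝ) * (1 / (4 * (K : ℝ))) ≤ 4 * (K : ℝ) * (x - tj K r) := by
    apply mul_le_mul_of_nonneg_left _ (by positivity)
    linarith
  have h2 : 4 * (K : ℝ) * (1 / (4 * (K : ℝ))) = 1 := by
    field_simp
  linarith

private theorem fr_Fp_tj (K : ℕ) (hK : 1 ≤ K) (r j : ℕ) :
    Fp K r (tj K j) = if r + 1 ≤ j then 1 else 0 := by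
  split_ifs with h
  · exact fr_Fp_one K hK r _ (fr_tj_le K hK h)
  · apply fr_Fp_zero K hK r
    have h1 : tj K j + 1 / (K : ℝ) ≤ tj K (r + 1) := fr_tj_lt K hK (by omega)
    have h2 := fr_quarter K hK
    linarith

private theorem fr_Fm_tj (K : ℕ) (hK : 1 ≤ K) (r j : ℕ) :
    Fm K r (tj K j) = if r + 1 ≤ j then 0 else 1 := by
  split_ifs with h
  · apply fr_Fm_zero K hK r
    have h1 : tj K r + 1 / (K : ℝ) ≤ tj K j := fr_tj_lt K hK h
    have h2 := fr_quarter K hK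
    linarith
  · exact fr_Fm_one K hK r _ (fr_tj_le K hK (by omega))

private theorem fr_psi_tj (K : ℕ) (hK : 1 ≤ K) (j : ℕ) (hj : j < K) : psi K (tj K j) = 0 := by
  unfold psi
  have h1 : ∑ r ∈ Finset.range (K - 1), (1 / (K : ℝ)) * Fp K r (tj K j) = (j : ℝ) / (K : ℝ) := by
    have h2 : ∀ r ∈ Finset.range (K - 1), (1 / (K : ℝ)) * Fp K r (tj K j)
        = if r < j then 1 / (K : ℝ) else 0 := by
      intro r _
      rw [fr_Fp_tj K hK r j]
      by_cases h : r < j
      · rw [if_pos (by omega), if_pos h, mul_one]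
      · rw [if_neg (by omega), if_neg h, mul_zero]
    rw [Finset.sum_congr rfl h2, ← Finset.sum_filter]
    have h3 : (Finset.range (K - 1)).filter (fun r => r < j) = Finset.range j := by
      ext r
      simp only [Finset.mem_filter, Finset.mem_range]
      omega
    rw [h3, Finset.sum_const, Finset.card_range, nsmul_eq_mul]
    ring
  have h4 := fr_tj_sub K hK 0 j
  rw [h1]
  push_cast at h4
  rw [sub_zero] at h4
  linarith

private theorem fr_tj_bd (K : ℕ) (hK : 1 ≤ K) (j : ℕ) (hj : j < K) :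
    0 ≤ tj K j ∧ tj K j ≤ 1 := by
  have hK0 : (0 : ℝ) < (K : ℝ) := by positivity
  unfold tj
  refine ⟨by positivity, ?_⟩
  rw [div_le_one (by positivity)]
  have : (j : ℝ) + 1 ≤ (K : ℝ) := by exact_mod_cast hj
  linarith

private theorem fr_psi_bd (K : ℕ) (hK : 1 ≤ K) (x : ℝ) (hx0 : 0 ≤ x) (hx1 : x ≤ 1) :
    |psi K x| ≤ 2 := by
  have hK0 : (0 : ℝ) < (K : ℝ) := by positivity
  have h0 := fr_tj_bd K hK 0 (by omega)
  have hs0 : 0 ≤ ∑ r ∈ Finset.range (K - 1), (1 / (K : ℝ)) * Fp K r x := by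
    apply Finset.sum_nonneg
    intro r _
    exact mul_nonneg (by positivity) (fr_ramp_bd _).1
  have hs1 : ∑ r ∈ Finset.range (K - 1), (1 / (K : ℝ)) * Fp K r x ≤ 1 := by
    have h1 : ∑ r ∈ Finset.range (K - 1), (1 / (K : ℝ)) * Fp K r x
        ≤ ∑ r ∈ Finset.range (K - 1), (1 / (K : ℝ)) := by
      apply Finset.sum_le_sum
      intro r _
      have h2 := (fr_ramp_bd (4 * (K : ℝ) * (x - tj K (r + 1)) + 1)).2
      have h3 : Fp K r x ≤ 1 := h2
      calc (1 / (K : ℝ)) * Fp K r x ≤ (1 / (K : ℝ)) * 1 :=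
            mul_le_mul_of_nonneg_left h3 (by positivity)
        _ = 1 / (K : ℝ) := mul_one _
    refine h1.trans ?_
    rw [Finset.sum_const, Finset.card_range, nsmul_eq_mul, mul_one_div, div_le_one hK0]
    have : K - 1 ≤ K := Nat.sub_le _ _
    exact_mod_cast this
  unfold psi
  rw [abs_le]
  constructor <;> linarith

/-- (E7) Threshold functions. -/
theorem pFR : S_FR := by
  intro K hK
  have hK0 : (0 : ℝ) < (K : ℝ) := by positivity
  have cFp : ∀ r, Continuous (Fp K r) := by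
    intro r
    unfold Fp
    exact fr_ramp_cont.comp (by fun_prop)
  have cFm : ∀ r, Continuous (Fm K r) := by
    intro r
    unfold Fm
    exact fr_ramp_cont.comp (by fun_prop)
  refine ⟨fr_ramp_cont, fr_ramp_bd, cFp, cFm, ?_, fun r x => fr_ramp_bd _, fun r x => fr_ramp_bd _,
    fr_Fp_zero K hK, fr_Fp_one K hK, fr_Fm_one K hK, fr_Fm_zero K hK, ?_, fr_psi_tj K hK,
    fr_psi_bd K hK, ?_, ?_, fr_tj_bd K hK⟩
  · unfold psi
    refine (continuous_id.sub continuous_const).sub ?_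
    refine continuous_finsetSum _ ?_
    intro r _
    exact continuous_const.mul (cFp r)
  · intro r
    have h1 : tj K r + 1 / (K : ℝ) ≤ tj K (r + 1) := fr_tj_lt K hK le_rfl
    have h2 : 1 / (4 * (K : ℝ)) + 1 / (4 * (K : ℝ)) < 1 / (K : ℝ) := by
      have h3 : 1 / (4 * (K : ℝ)) + 1 / (4 * (K : ℝ)) = (1 / 2) * (1 / (K : ℝ)) := by
        field_simp
        norm_num
      rw [h3]
      have : 0 < 1 / (K : ℝ) := by positivity
      linarith
    linarith
  · intro r j _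
    rw [fr_Fp_tj K hK, fr_Fm_tj K hK]
    split_ifs <;> norm_num
  · intro r x
    unfold Fp
    apply fr_ramp_mono
    have h1 : tj K (r + 1) ≤ tj K (r + 1 + 1) := fr_tj_le K hK (by omega)
    have h2 : 4 * (K : ℝ) * (x - tj K (r + 1 + 1)) ≤ 4 * (K : ℝ) * (x - tj K (r + 1)) := by
      apply mul_le_mul_of_nonneg_left _ (by positivity)
      linarith
    linarith

end Pool.Agent.FT
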