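import Pool.Agent.Lib.FT.SpecE

/-!
# C44, block E, GAM: curve through points
-/

set_option autoImplicit false

open MeasureTheory

noncomputable section

namespace Pool.Agent.FT

theorem pGAM : S_GAM := by
  intro d K c hK
  have hK0 : (0 : ℝ) < K := by exact_mod_cast hK
  refine ⟨⟨fun x m => Set.projIcc (0 : ℝ) 1 zero_le_one
    (∑ j : Fin K, (c j m : ℝ) * max 0 (1 - K * |x - tj K j|)), ?_⟩, ?_⟩
  · refine continuous_pi (fun m => continuous_projIcc.comp ?_)
    refine continuous_finsetSum _ (fun j _ => ?_)
    fun_prop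
  · intro i
    funext m
    change Set.projIcc (0 : ℝ) 1 zero_le_one
      (∑ j : Fin K, (c j m : ℝ) * max 0 (1 - K * |tj K i - tj K j|)) = c i m
    have h1 : ∑ j : Fin K, (c j m : ℝ) * max 0 (1 - K * |tj K i - tj K j|) = (c i m : ℝ) := by
      rw [Finset.sum_eq_single i]
      · simp
      · intro j _ hj
        have h2 : tj K i - tj K j = (((i : ℕ) : ℝ) - ((j : ℕ) : ℝ)) / K := by
          unfold tj
          field_simp
          ring
        have h3 : (1 : ℝ) ≤ |((i : ℕ) : ℝ) - ((j : ℕ) : ℝ)| := by
          have h4 : ((i : ℕ) : ℤ) - ((j : ℕ) : ℤ) ≠ 0 := by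
            intro h
            apply hj
            apply Fin.ext
            omega
          have h5 := Int.one_le_abs h4
          have h6 : ((1 : ℤ) : ℝ) ≤ ((|((i : ℕ) : ℤ) - ((j : ℕ) : ℤ)| : ℤ) : ℝ) := by
            exact_mod_cast h5
          push_cast at h6
          exact h6
        have h7 : 1 - (K : ℝ) * |tj K i - tj K j| ≤ 0 := by
          rw [h2, abs_div, abs_of_pos hK0, mul_div_cancel₀ _ hK0.ne']
          linarith
        rw [max_eq_left h7, mul_zero]
      · intro h
        exact absurd (Finset.mem_univ i) h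
    rw [h1]
    exact Set.projIcc_val _ _

end Pool.Agent.FT
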