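import Pool.Agent.Lib.FT.SpecE

/-!
# C44, block E8: the step function and its integrals
-/

set_option autoImplicit false

open MeasureTheory

noncomputable section

namespace Pool.Agent.FT

private theorem gst_int_ind (s : Set ℝ) (hs : MeasurableSet s) (a c : ℝ) (hac : a ≤ c)
    (h : s ∩ Set.Ioc 0 1 ⊆ Set.Icc a c) :
    ∫ x in (0 : ℝ)..1, s.indicator (fun _ => (1 : ℝ)) x ≤ c - a := by
  rw [intervalIntegral.integral_of_le zero_le_one, MeasureTheory.integral_indicator hs,
    MeasureTheory.Measure.restrict_restrict hs, MeasureTheory.integral_const, smul_eq_mul, mul_one]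
  have h1 : (volume.restrict (s ∩ Set.Ioc 0 1)).real Set.univ = volume.real (s ∩ Set.Ioc 0 1) := by
    simp [MeasureTheory.Measure.real]
  rw [h1]
  have h2 : volume.real (s ∩ Set.Ioc 0 1) ≤ volume.real (Set.Icc a c) :=
    MeasureTheory.measureReal_mono h (by simp)
  refine h2.trans (le_of_eq ?_)
  rw [Real.volume_real_Icc_of_le hac]

private theorem gst_ind_integrable (s : Set ℝ) (hs : MeasurableSet s) :
    IntervalIntegrable (s.indicator (fun _ => (1 : ℝ))) volume 0 1 := by
  rw [intervalIntegrable_iff_integrableOn_Ioc_of_le zero_le_one]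
  exact (MeasureTheory.integrable_const (1 : ℝ)).indicator hs

/-- (E8) The step function. -/
theorem pGST (hFR : S_FR) : S_GST := by
  intro K hK b w hw hb hb01
  obtain ⟨cr, rbd, cFp, cFm, cpsi, bFp, bFm, Fp0, Fp1, Fm1, Fm0, tt, psi0, psi2, FmFp, -, tjb⟩ :=
    hFR K hK
  have hK0 : (0 : ℝ) < (K : ℝ) := by positivity
  have ramp0 : ∀ y : ℝ, y ≤ 0 → ramp y = 0 := by
    intro y hy
    unfold ramp
    exact max_eq_left ((min_le_right _ _).trans hy)
  have ramp1 : ∀ y : ℝ, 1 ≤ y → ramp y = 1 := by
    intro y hy
    unfold ramp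
    rw [min_eq_left hy]
    exact max_eq_right zero_le_one
  have htj : ∀ j : ℕ, tj K j = tj K 0 + (j : ℝ) * (1 / (K : ℝ)) := by
    intro j
    unfold tj
    field_simp
    push_cast
    ring
  -- continuity
  have cG : Continuous (Gst K b w) := by
    unfold Gst
    refine continuous_const.add (continuous_finsetSum _ ?_)
    intro r _
    exact continuous_const.mul (cr.comp (by fun_prop))
  -- values of ramps
  have rz : ∀ (r : ℕ) (x : ℝ), x ≤ b r → ramp ((x - b r) / w) = 0 := by
    intro r x hx
    apply ramp0
    apply div_nonpos_of_nonpos_of_nonneg _ hw.le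
    linarith
  have ro : ∀ (r : ℕ) (x : ℝ), b r + w ≤ x → ramp ((x - b r) / w) = 1 := by
    intro r x hx
    apply ramp1
    rw [le_div_iff₀ hw]
    linarith
  -- G ≤ t_r left of b r
  have Gle : ∀ r, r < K - 1 → ∀ x, x ≤ b r → Gst K b w x ≤ tj K r := by
    intro r hr x hx
    rw [htj r]
    unfold Gst
    have h1 : ∑ s ∈ Finset.range (K - 1), (1 / (K : ℝ)) * ramp ((x - b s) / w)
        ≤ ∑ s ∈ Finset.range (K - 1), (if s < r then 1 / (K : ℝ) else 0) := by
      apply Finset.sum_le_sum
      intro s _
      split_ifs with hs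
      · calc (1 / (K : ℝ)) * ramp ((x - b s) / w) ≤ (1 / (K : ℝ)) * 1 :=
            mul_le_mul_of_nonneg_left (rbd _).2 (by positivity)
          _ = 1 / (K : ℝ) := mul_one _
      · rw [rz s x (hx.trans (hb (by omega))), mul_zero]
    have h2 : ∑ s ∈ Finset.range (K - 1), (if s < r then 1 / (K : ℝ) else 0)
        = (r : ℝ) * (1 / (K : ℝ)) := by
      rw [← Finset.sum_filter]
      have h3 : (Finset.range (K - 1)).filter (fun s => s < r) = Finset.range r := by
        ext s
        simp only [Finset.mem_filter, Finset.mem_range]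
        omega
      rw [h3, Finset.sum_const, Finset.card_range, nsmul_eq_mul]
    linarith
  -- G ≥ t_{r+1} right of b r + w
  have Gge : ∀ r, r < K - 1 → ∀ x, b r + w ≤ x → tj K (r + 1) ≤ Gst K b w x := by
    intro r hr x hx
    rw [htj (r + 1)]
    unfold Gst
    have h1 : ∑ s ∈ Finset.range (K - 1), (if s < r + 1 then 1 / (K : ℝ) else 0)
        ≤ ∑ s ∈ Finset.range (K - 1), (1 / (K : ℝ)) * ramp ((x - b s) / w) := by
      apply Finset.sum_le_sum
      intro s _
      split_ifs with hs
      · have hbs : b s ≤ b r := hb (by omega)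
        rw [ro s x (by linarith), mul_one]
      · exact mul_nonneg (by positivity) (rbd _).1
    have h2 : ∑ s ∈ Finset.range (K - 1), (if s < r + 1 then 1 / (K : ℝ) else 0)
        = ((r + 1 : ℕ) : ℝ) * (1 / (K : ℝ)) := by
      rw [← Finset.sum_filter]
      have h3 : (Finset.range (K - 1)).filter (fun s => s < r + 1) = Finset.range (r + 1) := by
        ext s
        simp only [Finset.mem_filter, Finset.mem_range]
        omega
      rw [h3, Finset.sum_const, Finset.card_range, nsmul_eq_mul]
    linarith
  -- global bounds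
  have G01 : ∀ x, 0 ≤ Gst K b w x ∧ Gst K b w x ≤ 1 := by
    intro x
    have hs0 : 0 ≤ ∑ r ∈ Finset.range (K - 1), (1 / (K : ℝ)) * ramp ((x - b r) / w) := by
      apply Finset.sum_nonneg
      intro r _
      exact mul_nonneg (by positivity) (rbd _).1
    have hs1 : ∑ r ∈ Finset.range (K - 1), (1 / (K : ℝ)) * ramp ((x - b r) / w)
        ≤ ((K - 1 : ℕ) : ℝ) * (1 / (K : ℝ)) := by
      have h1 : ∑ r ∈ Finset.range (K - 1), (1 / (K : ℝ)) * ramp ((x - b r) / w)
          ≤ ∑ r ∈ Finset.range (K - 1), (1 / (K : ℝ)) := by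
        apply Finset.sum_le_sum
        intro r _
        calc (1 / (K : ℝ)) * ramp ((x - b r) / w) ≤ (1 / (K : ℝ)) * 1 :=
              mul_le_mul_of_nonneg_left (rbd _).2 (by positivity)
          _ = 1 / (K : ℝ) := mul_one _
      refine h1.trans ?_
      rw [Finset.sum_const, Finset.card_range, nsmul_eq_mul]
    have h0 := (tjb 0 (by omega)).1
    have h1 := (tjb (K - 1) (by omega)).2
    rw [htj (K - 1)] at h1
    unfold Gst
    constructor <;> linarith
  -- values at good points
  have Ggood : ∀ x, (∀ r, r < K - 1 → x ≤ b r ∨ b r + w ≤ x) → psi K (Gst K b w x) = 0 := by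
    intro x hx
    have h1 : ∃ j, j < K ∧ Gst K b w x = tj K j := by
      refine ⟨((Finset.range (K - 1)).filter (fun s => b s + w ≤ x)).card, ?_, ?_⟩
      · have h2 := Finset.card_filter_le (Finset.range (K - 1)) (fun s => b s + w ≤ x)
        rw [Finset.card_range] at h2
        omega
      · rw [htj]
        unfold Gst
        congr 1
        have h2 : ∀ s ∈ Finset.range (K - 1), (1 / (K : ℝ)) * ramp ((x - b s) / w)
            = if b s + w ≤ x then 1 / (K : ℝ) else 0 := by
          intro s hs
          split_ifs with h3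
          · rw [ro s x h3, mul_one]
          · rcases hx s (Finset.mem_range.mp hs) with h4 | h4
            · rw [rz s x h4, mul_zero]
            · exact absurd h4 h3
        rw [Finset.sum_congr rfl h2, ← Finset.sum_filter, Finset.sum_const, nsmul_eq_mul]
    obtain ⟨j, hj, hG⟩ := h1
    rw [hG]
    exact psi0 j hj
  refine ⟨cG, G01, ?_, ?_⟩
  · intro r hr
    have FpG0 : ∀ x, x ≤ b r → Fp K r (Gst K b w x) = 0 := by
      intro x hx
      apply Fp0
      have h1 := Gle r hr x hx
      have h2 := tt r
      have h3 : 0 < 1 / (4 * (K : ℝ)) := by positivity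
      linarith
    have FpG1 : ∀ x, b r + w ≤ x → Fp K r (Gst K b w x) = 1 := by
      intro x hx
      exact Fp1 r _ (Gge r hr x hx)
    have FmG1 : ∀ x, x ≤ b r → Fm K r (Gst K b w x) = 1 := by
      intro x hx
      exact Fm1 r _ (Gle r hr x hx)
    have iFp : IntervalIntegrable (fun x => Fp K r (Gst K b w x)) volume 0 1 :=
      ((cFp r).comp cG).intervalIntegrable _ _
    have iFmFp : IntervalIntegrable (fun x => Fm K r (Gst K b w x) + Fp K r (Gst K b w x))
        volume 0 1 :=
      (((cFm r).comp cG).add ((cFp r).comp cG)).intervalIntegrable _ _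
    have hbr := hb01 r
    refine ⟨?_, ?_, ?_⟩
    · have h1 := gst_int_ind (Set.Iio (b r + w)) measurableSet_Iio 0 (b r + w) (by linarith)
        (fun x hx => ⟨hx.2.1.le, hx.1.le⟩)
      have h2 : ∫ x in (0 : ℝ)..1, (1 - (Set.Iio (b r + w)).indicator (fun _ => (1 : ℝ)) x)
          ≤ ∫ x in (0 : ℝ)..1, Fp K r (Gst K b w x) := by
        apply intervalIntegral.integral_mono_on zero_le_one
          (intervalIntegrable_const.sub (gst_ind_integrable _ measurableSet_Iio)) iFp
        intro x _
        by_cases hx : x < b r + w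
        · rw [Set.indicator_of_mem (Set.mem_Iio.mpr hx)]
          have := (bFp r (Gst K b w x)).1
          linarith
        · rw [Set.indicator_of_notMem (by simpa using hx), FpG1 x (by linarith)]
          linarith
      rw [intervalIntegral.integral_sub intervalIntegrable_const
        (gst_ind_integrable _ measurableSet_Iio)] at h2
      have h3 : ∫ x in (0 : ℝ)..1, (1 : ℝ) = 1 := by simp
      rw [h3] at h2
      linarith
    · have h1 := gst_int_ind (Set.Ioi (b r)) measurableSet_Ioi (b r) 1 hbr.2
        (fun x hx => ⟨(Set.mem_Ioi.mp hx.1).le, hx.2.2⟩)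
      have h2 : ∫ x in (0 : ℝ)..1, Fp K r (Gst K b w x)
          ≤ ∫ x in (0 : ℝ)..1, (Set.Ioi (b r)).indicator (fun _ => (1 : ℝ)) x := by
        apply intervalIntegral.integral_mono_on zero_le_one iFp
          (gst_ind_integrable _ measurableSet_Ioi)
        intro x _
        by_cases hx : b r < x
        · rw [Set.indicator_of_mem (Set.mem_Ioi.mpr hx)]
          exact (bFp r (Gst K b w x)).2
        · rw [Set.indicator_of_notMem (by simpa using hx), FpG0 x (by linarith)]
      linarith
    · have h1 := gst_int_ind (Set.Ioo (b r) (b r + w)) measurableSet_Ioo (b r) (b r + w)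
        (by linarith) (fun x hx => ⟨hx.1.1.le, hx.1.2.le⟩)
      have h2 : ∫ x in (0 : ℝ)..1,
            (1 - (Set.Ioo (b r) (b r + w)).indicator (fun _ => (1 : ℝ)) x)
          ≤ ∫ x in (0 : ℝ)..1, (Fm K r (Gst K b w x) + Fp K r (Gst K b w x)) := by
        apply intervalIntegral.integral_mono_on zero_le_one
          (intervalIntegrable_const.sub (gst_ind_integrable _ measurableSet_Ioo)) iFmFp
        intro x _
        have hp := (bFp r (Gst K b w x)).1
        have hm := (bFm r (Gst K b w x)).1
        by_cases hx : x ∈ Set.Ioo (b r) (b r + w)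
        · rw [Set.indicator_of_mem hx]
          linarith
        · rw [Set.indicator_of_notMem hx]
          rcases le_or_gt x (b r) with hx1 | hx1
          · rw [FmG1 x hx1]
            linarith
          · have hx2 : b r + w ≤ x := by
              by_contra h3
              exact hx ⟨hx1, not_le.mp h3⟩
            rw [FpG1 x hx2]
            linarith
      rw [intervalIntegral.integral_sub intervalIntegrable_const
        (gst_ind_integrable _ measurableSet_Ioo)] at h2
      have h3 : ∫ x in (0 : ℝ)..1, (1 : ℝ) = 1 := by simp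
      rw [h3] at h2
      linarith
  · -- the square of psi
    have ipsi : IntervalIntegrable (fun x => (psi K (Gst K b w x)) ^ 2) volume 0 1 :=
      ((cpsi.comp cG).pow 2).intervalIntegrable _ _
    have iind : ∀ r ∈ Finset.range (K - 1), IntervalIntegrable
        (fun x => 4 * (Set.Ioo (b r) (b r + w)).indicator (fun _ => (1 : ℝ)) x) volume 0 1 :=
      fun r _ => (gst_ind_integrable _ measurableSet_Ioo).const_mul 4
    have h1 : ∫ x in (0 : ℝ)..1, (psi K (Gst K b w x)) ^ 2
        ≤ ∫ x in (0 : ℝ)..1, ∑ r ∈ Finset.range (K - 1),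
            4 * (Set.Ioo (b r) (b r + w)).indicator (fun _ => (1 : ℝ)) x := by
      apply intervalIntegral.integral_mono_on zero_le_one ipsi
      · have h0 := IntervalIntegrable.sum (Finset.range (K - 1)) iind
        have he : (∑ r ∈ Finset.range (K - 1), fun x : ℝ =>
            4 * (Set.Ioo (b r) (b r + w)).indicator (fun _ => (1 : ℝ)) x)
            = fun x : ℝ => ∑ r ∈ Finset.range (K - 1),
              4 * (Set.Ioo (b r) (b r + w)).indicator (fun _ => (1 : ℝ)) x := by
          funext x
          simp only [Finset.sum_apply]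
        rw [he] at h0
        exact h0
      · intro x _
        by_cases hx : ∀ r, r < K - 1 → x ≤ b r ∨ b r + w ≤ x
        · rw [Ggood x hx]
          have : 0 ≤ ∑ r ∈ Finset.range (K - 1),
              4 * (Set.Ioo (b r) (b r + w)).indicator (fun _ => (1 : ℝ)) x := by
            apply Finset.sum_nonneg
            intro r _
            exact mul_nonneg (by norm_num) (Set.indicator_nonneg (fun _ _ => zero_le_one) _)
          simpa using this
        · push Not at hx
          obtain ⟨r, hr, hx1, hx2⟩ := hx
          have h2 : (4 : ℝ) ≤ ∑ r ∈ Finset.range (K - 1),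
              4 * (Set.Ioo (b r) (b r + w)).indicator (fun _ => (1 : ℝ)) x := by
            have h3 := Finset.single_le_sum (s := Finset.range (K - 1))
              (f := fun r => 4 * (Set.Ioo (b r) (b r + w)).indicator (fun _ => (1 : ℝ)) x)
              (fun r _ => mul_nonneg (by norm_num)
                (Set.indicator_nonneg (fun _ _ => zero_le_one) _)) (Finset.mem_range.mpr hr)
            simp only [Set.indicator_of_mem (show x ∈ Set.Ioo (b r) (b r + w) from ⟨hx1, hx2⟩),
              mul_one] at h3
            exact h3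
          have h4 := psi2 (Gst K b w x) (G01 x).1 (G01 x).2
          have h5 : (psi K (Gst K b w x)) ^ 2 ≤ 2 ^ 2 := by
            rw [← sq_abs]
            exact pow_le_pow_left₀ (abs_nonneg _) h4 2
          linarith
    rw [intervalIntegral.integral_finsetSum iind] at h1
    have h2 : ∑ r ∈ Finset.range (K - 1), ∫ x in (0 : ℝ)..1,
        4 * (Set.Ioo (b r) (b r + w)).indicator (fun _ => (1 : ℝ)) x
        ≤ ∑ r ∈ Finset.range (K - 1), 4 * w := by
      apply Finset.sum_le_sum
      intro r _
      rw [intervalIntegral.integral_const_mul]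
      have h3 := gst_int_ind (Set.Ioo (b r) (b r + w)) measurableSet_Ioo (b r) (b r + w)
        (by linarith) (fun x hx => ⟨hx.1.1.le, hx.1.2.le⟩)
      linarith
    rw [Finset.sum_const, Finset.card_range, nsmul_eq_mul] at h2
    have h3 : ((K - 1 : ℕ) : ℝ) ≤ (K : ℝ) := by exact_mod_cast Nat.sub_le K 1
    have h4 : ((K - 1 : ℕ) : ℝ) * (4 * w) ≤ (K : ℝ) * (4 * w) :=
      mul_le_mul_of_nonneg_right h3 (by linarith)
    linarith

end Pool.Agent.FT
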