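import Pool.Agent.Lib.FT.SpecE

/-!
# C44 (MP_1cc182_an), module E/HAAR: moments of `v 0 * v 1`
-/

set_option autoImplicit false

namespace Pool.Agent.FT

private def alt {D : Type} (v : ℕ → D) : ℕ → List (Option ℕ × D)
  | 0 => []
  | n + 1 => (some 0, v 0) :: (some 1, v 1) :: alt v n

private theorem alt_prod {D : Type} [Monoid D] (v : ℕ → D) (n : ℕ) :
    ((alt v n).map Prod.snd).prod = (v 0 * v 1) ^ n := by
  induction n with
  | zero => simp [alt]
  | succ n ih =>
    rw [pow_succ', ← ih]
    simp [alt, mul_assoc]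

private theorem alt_chain {D : Type} (v : ℕ → D) (n : ℕ) :
    ((some 1 : Option ℕ) :: (alt v n).map Prod.fst).IsChain (· ≠ ·) := by
  induction n with
  | zero => simp [alt]
  | succ n ih =>
    simp only [alt, List.map_cons]
    refine List.IsChain.cons_cons (by simp) (List.IsChain.cons_cons (by simp) ih)

private theorem alt_mem {D : Type} (v : ℕ → D) (n : ℕ) (p : Option ℕ × D) (hp : p ∈ alt v n) :
    p = (some 0, v 0) ∨ p = (some 1, v 1) := by
  induction n with
  | zero => simp [alt] at hp
  | succ n ih =>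
    simp only [alt, List.mem_cons] at hp
    rcases hp with h | h | h
    · exact Or.inl h
    · exact Or.inr h
    · exact ih h

theorem pHAAR : S_HAAR := by
  intro d D _ τ ι v hS n hn
  rw [← alt_prod v n]
  refine hS.free (alt v n) ?_ ?_ ?_
  · obtain ⟨m, rfl⟩ : ∃ m, n = m + 1 := ⟨n - 1, by omega⟩
    simp [alt]
  · exact (alt_chain v n).tail
  · intro p hp
    rcases alt_mem v n p hp with rfl | rfl
    · exact ⟨StarAlgebra.subset_adjoin ℂ _ (Set.mem_singleton _), hS.tz 0⟩
    · exact ⟨StarAlgebra.subset_adjoin ℂ _ (Set.mem_singleton _), hS.tz 1⟩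

end Pool.Agent.FT
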