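import Pool.Agent.Lib.FT.SpecE

/-!
# C44, block E, HAT: partition of unity with squares on the cube
-/

set_option autoImplicit false

open MeasureTheory

noncomputable section

namespace Pool.Agent.FT

private theorem hat_pos : (volume : Measure unitInterval).IsOpenPosMeasure := ⟨by
  intro U hU hne h0
  obtain ⟨a, b, hab, hsub⟩ := hU.exists_Ioo_subset hne
  have h1 := measure_mono_null hsub h0
  rw [unitInterval.volume_Ioo, ENNReal.ofReal_eq_zero] at h1
  have : (a : ℝ) < b := hab
  linarith⟩

theorem pHAT : S_HAT := by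
  intro d ε hε
  haveI := hat_pos
  obtain ⟨s, -, hsf, hs⟩ := finite_cover_balls_of_compact
    (isCompact_univ : IsCompact (Set.univ : Set (Cube d))) hε
  set t : Finset (Cube d) := hsf.toFinset with ht
  set z : Fin t.card → Cube d := fun l => (t.equivFin.symm l : Cube d) with hz
  set g : Fin t.card → Cube d → ℝ := fun l p => max 0 (ε - dist p (z l)) with hg
  have hgc : ∀ l, Continuous (g l) := fun l => by
    simp only [hg]
    fun_prop
  have hg0 : ∀ l p, 0 ≤ g l p := fun l p => le_max_left _ _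
  have hcov : ∀ p, ∃ l, 0 < g l p := by
    intro p
    have h1 := hs (Set.mem_univ p)
    rw [Set.mem_iUnion₂] at h1
    obtain ⟨y, hy, hpy⟩ := h1
    have hyt : y ∈ t := hsf.mem_toFinset.2 hy
    refine ⟨t.equivFin ⟨y, hyt⟩, ?_⟩
    simp only [hg, hz, Equiv.symm_apply_apply]
    rw [Metric.mem_ball] at hpy
    exact lt_max_of_lt_right (by linarith)
  have hG : ∀ p, 0 < ∑ l, g l p := by
    intro p
    obtain ⟨l, hl⟩ := hcov p
    exact lt_of_lt_of_le hl (Finset.single_le_sum (f := fun l => g l p) (fun i _ => hg0 i p)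
      (Finset.mem_univ l))
  have hGc : Continuous (fun p => ∑ l, g l p) := continuous_finsetSum _ (fun l _ => hgc l)
  set h : Fin t.card → C(Cube d, ℝ) := fun l =>
    ⟨fun p => Real.sqrt (g l p / ∑ i, g i p), ((hgc l).div hGc (fun p => (hG p).ne')).sqrt⟩ with hh
  have hq0 : ∀ l p, 0 ≤ g l p / ∑ i, g i p := fun l p => div_nonneg (hg0 l p) (hG p).le
  have hsq : ∀ l p, (h l p) ^ 2 = g l p / ∑ i, g i p := fun l p => Real.sq_sqrt (hq0 l p)
  have hI : ∀ l, 0 < ∫ p, (h l p) ^ 2 := by
    intro l
    refine Continuous.integral_pos_of_hasCompactSupport_nonneg_nonzero (x := z l)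
      ((h l).continuous.pow 2) (HasCompactSupport.of_compactSpace _) (fun p => sq_nonneg _) ?_
    rw [hsq]
    have : 0 < g l (z l) := by
      simp only [hg, dist_self, sub_zero]
      exact lt_max_of_lt_right hε
    exact (div_pos this (hG _)).ne'
  obtain ⟨ρ, hρ, hρl⟩ : ∃ ρ : ℝ, 0 < ρ ∧ ∀ l, 4 * ρ ≤ ∫ p, (h l p) ^ 2 := by
    rcases isEmpty_or_nonempty (Fin t.card) with hE | hN
    · exact ⟨1, one_pos, fun l => (hE.false l).elim⟩
    · obtain ⟨l0, hl0⟩ := Finite.exists_min (fun l => ∫ p, (h l p) ^ 2)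
      refine ⟨(∫ p, (h l0 p) ^ 2) / 4, by linarith [hI l0], fun l => ?_⟩
      have := hl0 l
      linarith
  refine ⟨t.card, h, z, ρ, hρ, fun l p => Real.sqrt_nonneg _, ?_, ?_, hρl⟩
  · intro p
    rw [Finset.sum_congr rfl (fun l _ => hsq l p), ← Finset.sum_div]
    exact div_self (hG p).ne'
  · intro l m p
    by_cases h0 : g l p = 0
    · have : h l p = 0 := by
        change Real.sqrt (g l p / ∑ i, g i p) = 0
        rw [h0, zero_div, Real.sqrt_zero]
      rw [this, mul_zero, mul_zero]
    · refine mul_le_mul_of_nonneg_right ?_ (Real.sqrt_nonneg _)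
      have h1 : dist (p m) (z l m) ≤ dist p (z l) := dist_le_pi_dist p (z l) m
      have h2 : 0 < ε - dist p (z l) := by
        by_contra hc
        exact h0 (max_eq_left (not_lt.1 hc))
      have h3 : |(p m : ℝ) - (z l m : ℝ)| = dist (p m) (z l m) := by
        rw [Subtype.dist_eq, Real.dist_eq]
      rw [h3]
      linarith

end Pool.Agent.FT
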