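import Pool.Agent.Lib.FT.SpecE

/-! # C44, block E: the evaluation homomorphism -/

set_option autoImplicit false

open MeasureTheory

noncomputable section

namespace Pool.Agent.FT

theorem pHOM : S_HOM := by
  intro d D _ _ _ B γ hB0 hB1
  have hsa : IsSelfAdjoint B := IsSelfAdjoint.of_nonneg hB0
  have hn : IsStarNormal B := hsa.isStarNormal
  let g : C(spectrum ℂ B, Cube d) := ⟨fun z => γ (z : ℂ).re, by fun_prop⟩
  let ψ : C(Cube d, ℂ) →⋆ₐ[ℂ] D := (cfcHom hn).comp (ContinuousMap.compStarAlgHom' ℂ ℂ g)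
  refine ⟨ψ, ?_, ?_⟩
  · intro f
    rw [cfc_real_eq_complex _ hsa]
    have hc : ContinuousOn (fun x : ℂ => ((f (γ x.re) : ℝ) : ℂ)) (spectrum ℂ B) := by
      apply Continuous.continuousOn
      fun_prop
    rw [cfc_apply (fun x : ℂ => ((f (γ x.re) : ℝ) : ℂ)) B hn hc]
    rfl
  · intro E hE hBE f
    have h1 : ψ f ∈ StarAlgebra.elemental ℂ B := cfcHom_mem_elemental hn _
    exact (StarAlgebra.elemental.le_of_mem hE hBE) h1

end Pool.Agent.FT
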