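import Pool.Agent.Lib.FT.SpecE

/-!
# C44, (E15) Mass
-/

set_option autoImplicit false

open MeasureTheory

noncomputable section

namespace Pool.Agent.FT

private theorem int_cont {d : ℕ} (f : C(Cube d, ℝ)) :
    Integrable (fun p => f p) (volume : Measure (Cube d)) := by
  have := f.continuous.integrable_of_hasCompactSupport (μ := (volume : Measure (Cube d)))
    (HasCompactSupport.of_compactSpace _)
  exact this

theorem pMASS : S_MASS := by
  intro d R hR c h θ η hc γ hγ g ρ hρ hg hgg
  have hpt : ∀ p, g p - ρ - θ p ≤ g (γ (h p)) := by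
    intro p
    by_cases ht : θ p < 1
    · obtain ⟨j, hj, hj'⟩ := hc.good p ht
      have e : γ (h p) = c j := by rw [hj]; exact hγ j
      have h1 := hgg p (c j) hj'
      rw [e]
      have := hc.θ0 p
      have := le_abs_self (g p - g (c j))
      linarith
    · have h1 := hc.θ1 p
      have := (hg p).2
      have := (hg (γ (h p))).1
      linarith
  have i1 := int_cont g
  have i2 := int_cont θ
  have i3 := int_cont (g.comp (γ.comp h))
  have i4 : Integrable (fun p => g p - ρ) (volume : Measure (Cube d)) :=
    i1.sub (integrable_const ρ)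
  have h1 : ∫ p, (g p - ρ - θ p) ≤ ∫ p, g (γ (h p)) :=
    integral_mono (i4.sub i2) i3 hpt
  have h2 : ∫ p, (g p - ρ - θ p) = (∫ p, g p) - ρ - ∫ p, θ p := by
    rw [integral_sub i4 i2, integral_sub i1 (integrable_const ρ)]
    simp
  have := hc.int
  linarith

end Pool.Agent.FT
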