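import Pool.Agent.Lib.FT.SpecE

/-!
# C44, block E, module PATH (helper59): the path
-/

set_option autoImplicit false

open MeasureTheory

noncomputable section

namespace Pool.Agent.FT

private theorem pathSmul {D : Type} [CStarAlgebra D] {τ : D →ₗ[ℂ] ℂ} (h : IsState τ) (c : ℝ)
    (x : D) : n2 τ (c • x) = |c| * n2 τ x := by
  have e : c • x = (c : ℂ) • x := (Complex.coe_smul c x).symm
  rw [e, h.n2_smul, Complex.norm_real, Real.norm_eq_abs]

private theorem pathN {D : Type} [CStarAlgebra D] [PartialOrder D] [StarOrderedRing D] {x : D}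
    (hx : IsSelfAdjoint x) (h1 : x ≤ 1) (h2 : -1 ≤ x) : ‖x‖ ≤ 1 := by
  have e : cfc (fun t : ℝ => t) x = x := cfc_id' ℝ x
  rw [← e]
  apply norm_cfc_le zero_le_one
  intro t ht
  rw [Real.norm_eq_abs, abs_le]
  constructor
  · have h3 : algebraMap ℝ D (-1) ≤ x := by rwa [map_neg, map_one]
    exact (algebraMap_le_iff_le_spectrum (ha := hx)).1 h3 t ht
  · have h3 : x ≤ algebraMap ℝ D 1 := by rwa [map_one]
    exact (le_algebraMap_iff_spectrum_le (ha := hx)).1 h3 t ht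

private theorem pathAB {D : Type} [CStarAlgebra D] [PartialOrder D] [StarOrderedRing D] {A B : D}
    (hA0 : 0 ≤ A) (hA1 : A ≤ 1) (hB0 : 0 ≤ B) (hB1 : B ≤ 1) : ‖A - B‖ ≤ 1 := by
  apply pathN ((IsSelfAdjoint.of_nonneg hA0).sub (IsSelfAdjoint.of_nonneg hB0))
  · have := sub_le_sub hA1 hB0
    rwa [sub_zero] at this
  · have := sub_le_sub hA0 hB1
    rwa [zero_sub] at this

private theorem pathC {D : Type} [CStarAlgebra D] [PartialOrder D] [StarOrderedRing D] {A B : D}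
    (hA0 : 0 ≤ A) (hA1 : A ≤ 1) (hB0 : 0 ≤ B) (hB1 : B ≤ 1) {s : ℝ} (h0 : 0 ≤ s) (h1 : s ≤ 1) :
    0 ≤ (1 - s) • A + s • B ∧ (1 - s) • A + s • B ≤ 1 := by
  constructor
  · exact add_nonneg (smul_nonneg (by linarith) hA0) (smul_nonneg h0 hB0)
  · have e : 1 - ((1 - s) • A + s • B) = (1 - s) • (1 - A) + s • (1 - B) := by
      module
    have h2 : 0 ≤ 1 - ((1 - s) • A + s • B) := by
      rw [e]
      exact add_nonneg (smul_nonneg (by linarith) (sub_nonneg.2 hA1))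
        (smul_nonneg h0 (sub_nonneg.2 hB1))
    exact sub_nonneg.1 h2

theorem pPATH (hCFI : S_CFI) (hHOM : S_HOM) (hST1 : S_ST1) (hMASS : S_MASS) : S_PATH := by
  intro d R L n₁ n₂ ε ρ δ κ₁ η c h θ γ hl z hR hRε hn₁ hn₁ε hn₂ hρ hδ hη hηδ hηρ hcell hγ hl0 hl1
    hlz hlint hlu D _ _ _ τ ι v hsys E u T' hE hιE hu hu1 hu2 hT'E hT'0 hT'1 hcN hc2 hc3 hκ
  obtain ⟨i1, i2, i3, i4, i5, i6⟩ := hCFI
  have hst := hsys.tr.state
  obtain ⟨t1, t2, t3, t4⟩ := i4 d D ι h
  obtain ⟨ψ, p1, p2, p3, p4, p5⟩ := hST1 d R hR c h θ η hcell γ hγ D τ ι v hsys E u hιE hu hu1 hu2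
  have h6 := i6 d D τ ι v hsys u h
  have hA01 := i5 D u (ι (toC h)) hu1 hu2 (t2 hcell.h0) (t3 hcell.h1)
  have hAE : u * ι (toC h) * star u ∈ E := mul_mem (mul_mem hu (hιE ⟨_, rfl⟩)) (star_mem hu)
  generalize hA : u * ι (toC h) * star u = A at *
  have hn₂' : (1 : ℝ) ≤ n₂ := by exact_mod_cast hn₂
  have hn₁' : (1 : ℝ) ≤ n₁ := by exact_mod_cast hn₁
  -- the parameters of the second stage
  obtain ⟨s, hs⟩ : ∃ s : ℕ → ℝ, s = fun j : ℕ => min 1 ((j : ℝ) / n₂) := ⟨_, rfl⟩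
  have s0 : ∀ j, 0 ≤ s j := by
    intro j
    rw [hs]
    exact le_min zero_le_one (by positivity)
  have s1 : ∀ j, s j ≤ 1 := by
    intro j
    rw [hs]
    exact min_le_left _ _
  have sz : s 0 = 0 := by
    rw [hs]
    simp
  have sn : s n₂ = 1 := by
    rw [hs]
    have : (n₂ : ℝ) / n₂ = 1 := div_self (by linarith)
    simp [this]
  have sstep : ∀ j, |s (j + 1) - s j| ≤ 1 / (n₂ : ℝ) := by
    intro j
    rw [hs]
    have e1 : (((j + 1 : ℕ) : ℝ) / n₂) - ((j : ℝ) / n₂) = 1 / (n₂ : ℝ) := by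
      push_cast
      ring
    have h1 := abs_min_sub_min_le_max (1 : ℝ) (((j + 1 : ℕ) : ℝ) / n₂) 1 ((j : ℝ) / n₂)
    have e3 : |1 / (n₂ : ℝ)| = 1 / (n₂ : ℝ) := abs_of_nonneg (by positivity)
    rw [e1, sub_self, abs_zero, e3, max_eq_right (by positivity)] at h1
    exact h1
  obtain ⟨B, hB⟩ : ∃ B : ℕ → D, B = fun j => (1 - s j) • A + s j • T' := ⟨_, rfl⟩
  have hB01 : ∀ j, 0 ≤ B j ∧ B j ≤ 1 := by
    intro j
    rw [hB]
    exact pathC hA01.1 hA01.2 hT'0 hT'1 (s0 j) (s1 j)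
  have hBz : B 0 = A := by
    rw [hB]
    simp [sz]
  have hBn : B n₂ = T' := by
    rw [hB]
    simp [sn]
  have hBE : ∀ j, B j ∈ E := by
    intro j
    rw [hB]
    have hr : ∀ (r : ℝ) (x : D), x ∈ E → r • x ∈ E := by
      intro r x hx
      rw [← Complex.coe_smul r x]
      exact SMulMemClass.smul_mem _ hx
    exact add_mem (hr _ _ hAE) (hr _ _ hT'E)
  have hBT : ∀ j, n2 τ (B j - T') ≤ κ₁ := by
    intro j
    have e1 : B j - T' = (1 - s j) • (A - T') := by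
      rw [hB]
      module
    rw [e1, pathSmul hst, abs_of_nonneg (by linarith [s1 j])]
    have h1 := n2_nonneg τ (A - T')
    have h2 := s0 j
    nlinarith
  have hBstep : ∀ j, ‖B j - B (j + 1)‖ ≤ 1 / (n₂ : ℝ) := by
    intro j
    have e1 : B j - B (j + 1) = (s (j + 1) - s j) • (A - T') := by
      rw [hB]
      module
    rw [e1, norm_smul, Real.norm_eq_abs]
    have h1 := pathAB hA01.1 hA01.2 hT'0 hT'1
    have h2 := mul_le_mul (sstep j) h1 (norm_nonneg _) (by positivity)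
    linarith
  have hex := fun j => hHOM d D (B j) γ (hB01 j).1 (hB01 j).2
  choose ψ' r1 r2 using hex
  -- the functions of one variable
  have hfc : ∀ g : C(Cube d, ℝ), Continuous fun x : ℝ => g (γ x) := fun g =>
    g.continuous.comp γ.continuous
  have hcE : ∀ (g : C(Cube d, ℝ)) (x : D), x ∈ E → 0 ≤ x → cfc (fun y : ℝ => g (γ y)) x ∈ E :=
    fun g x hx hx0 => i3 D E x _ (hfc g) hE hx (IsSelfAdjoint.of_nonneg hx0)
  -- the path
  obtain ⟨φ, hφ⟩ : ∃ φ : ℕ → C(Cube d, ℂ) →⋆ₐ[ℂ] D,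
      φ = fun i => if i ≤ n₁ then ψ ((i : ℝ) / n₁) else ψ' (i - n₁) := ⟨_, rfl⟩
  have φ1 : ∀ i, i ≤ n₁ → φ i = ψ ((i : ℝ) / n₁) := by
    intro i hi
    rw [hφ]
    exact if_pos hi
  have φ2 : ∀ i, n₁ ≤ i → ∀ g : C(Cube d, ℝ), φ i (toC g) =
      cfc (fun x : ℝ => g (γ x)) (B (i - n₁)) := by
    intro i hi g
    rcases hi.eq_or_lt with h1 | h1
    · rw [φ1 i h1.ge, ← h1, Nat.sub_self, hBz]
      have : (n₁ : ℝ) / n₁ = 1 := div_self (by linarith)
      rw [this]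
      exact p3 g
    · have : φ i = ψ' (i - n₁) := by
        rw [hφ]
        exact if_neg (not_le.2 h1)
      rw [this]
      exact r1 _ g
  have φE : ∀ i f, φ i f ∈ E := by
    intro i f
    rcases le_or_gt i n₁ with h1 | h1
    · rw [φ1 i h1]
      exact p1 _ f
    · have : φ i = ψ' (i - n₁) := by
        rw [hφ]
        exact if_neg (not_le.2 h1)
      rw [this]
      exact r2 _ E hE (hBE _) f
  have φn : ∀ g : C(Cube d, ℝ), φ (n₁ + n₂) (toC g) = cfc (fun x : ℝ => g (γ x)) T' := by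
    intro g
    rw [φ2 _ (Nat.le_add_right _ _) g, Nat.add_sub_cancel_left, hBn]
  -- the decomposition
  have hdec : ∀ (i : ℕ) (m : Fin d), ∃ Y X : D, φ i (xc m) - φ (n₁ + n₂) (xc m) = Y + X ∧
      ‖Y‖ ≤ ε ∧ X ∈ E ∧ star X = X ∧ n2 τ X ≤ δ := by
    intro i m
    have eT : φ (n₁ + n₂) (xc m) = cfc (fun x : ℝ => ((γ x m : unitInterval) : ℝ)) T' :=
      φn (cR m)
    have sT : star (cfc (fun x : ℝ => ((γ x m : unitInterval) : ℝ)) T') =
        cfc (fun x : ℝ => ((γ x m : unitInterval) : ℝ)) T' := IsSelfAdjoint.cfc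
    have mT : cfc (fun x : ℝ => ((γ x m : unitInterval) : ℝ)) T' ∈ E := hcE (cR m) T' hT'E hT'0
    rcases le_or_gt i n₁ with h1 | h1
    · have h2 : (i : ℝ) / n₁ ≤ 1 := by
        rw [div_le_one (by linarith)]
        exact_mod_cast h1
      obtain ⟨Y, X, e1, e2, e3, e4, e5⟩ := p5 ((i : ℝ) / n₁) (by positivity) h2 m
      refine ⟨Y, X + (cfc (fun x : ℝ => ((γ x m : unitInterval) : ℝ)) A -
        cfc (fun x : ℝ => ((γ x m : unitInterval) : ℝ)) T'), ?_, e2.trans hRε, ?_, ?_, ?_⟩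
      · rw [φ1 i h1, eT, ← add_assoc, ← e1]
        abel
      · exact add_mem e3 (sub_mem (hcE (cR m) A hAE hA01.1) mT)
      · have sA : star (cfc (fun x : ℝ => ((γ x m : unitInterval) : ℝ)) A) =
          cfc (fun x : ℝ => ((γ x m : unitInterval) : ℝ)) A := IsSelfAdjoint.cfc
        rw [star_add, star_sub, e4, sT, sA]
      · have h3 : n2 τ X ≤ Real.sqrt η := Real.le_sqrt_of_sq_le e5
        have h4 := hc2 m A hA01.1 hA01.2 hκ
        have h5 := hst.n2_add_le X (cfc (fun x : ℝ => ((γ x m : unitInterval) : ℝ)) A -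
          cfc (fun x : ℝ => ((γ x m : unitInterval) : ℝ)) T')
        linarith
    · have e0 : φ i (xc m) = cfc (fun x : ℝ => ((γ x m : unitInterval) : ℝ)) (B (i - n₁)) :=
        φ2 i h1.le (cR m)
      have sB : star (cfc (fun x : ℝ => ((γ x m : unitInterval) : ℝ)) (B (i - n₁))) =
        cfc (fun x : ℝ => ((γ x m : unitInterval) : ℝ)) (B (i - n₁)) := IsSelfAdjoint.cfc
      refine ⟨0, cfc (fun x : ℝ => ((γ x m : unitInterval) : ℝ)) (B (i - n₁)) -
        cfc (fun x : ℝ => ((γ x m : unitInterval) : ℝ)) T', ?_, ?_, ?_, ?_, ?_⟩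
      · rw [e0, eT, zero_add]
      · rw [norm_zero]
        exact (by positivity : (0 : ℝ) ≤ 1 / (n₁ : ℝ)).trans hn₁ε
      · exact sub_mem (hcE (cR m) _ (hBE _) (hB01 _).1) mT
      · rw [star_sub, sT, sB]
      · have h4 := hc2 m (B (i - n₁)) (hB01 _).1 (hB01 _).2 (hBT _)
        linarith
  choose Y X e1 e2 e3 e4 e5 using hdec
  refine ⟨fun i => φ i, fun i m => Y i m, fun i m => X i m, ?_, ?_, ?_⟩
  · refine ⟨fun i f => φE i f, hl0, hl1, hlz, ?_, fun i m => e2 i m, fun i m => e3 i m,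
      fun i m => e4 i m, fun i m => e5 i m, ?_, ?_⟩
    · intro i m
      exact e1 i m
    · -- near
      intro i m
      show ‖φ (i : ℕ) (xc m) - φ ((i : ℕ) + 1) (xc m)‖ ≤ ε
      rcases lt_or_ge (i : ℕ) n₁ with h1 | h1
      · rw [φ1 _ h1.le, φ1 _ h1]
        have h2 : ((i : ℕ) : ℝ) / n₁ ≤ 1 := by
          rw [div_le_one (by linarith)]
          exact_mod_cast h1.le
        have h3 : (((i : ℕ) + 1 : ℕ) : ℝ) / n₁ ≤ 1 := by
          rw [div_le_one (by linarith)]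
          exact_mod_cast h1
        refine (p4 _ _ (by positivity) h2 (by positivity) h3 m).trans ?_
        have e6 : ((i : ℕ) : ℝ) / n₁ - (((i : ℕ) + 1 : ℕ) : ℝ) / n₁ = -(1 / (n₁ : ℝ)) := by
          push_cast
          ring
        rw [e6, abs_neg, abs_of_nonneg (by positivity)]
        exact hn₁ε
      · have e6 : φ (i : ℕ) (xc m) = cfc (fun x : ℝ => ((γ x m : unitInterval) : ℝ))
            (B ((i : ℕ) - n₁)) := φ2 _ h1 (cR m)
        have e7 : φ ((i : ℕ) + 1) (xc m) = cfc (fun x : ℝ => ((γ x m : unitInterval) : ℝ))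
            (B ((i : ℕ) + 1 - n₁)) := φ2 _ (h1.trans (Nat.le_succ _)) (cR m)
        have e8 : (i : ℕ) + 1 - n₁ = (i : ℕ) - n₁ + 1 := by omega
        rw [e6, e7, e8]
        exact hcN m _ _ (hB01 _).1 (hB01 _).2 (hB01 _).1 (hB01 _).2 (hBstep _)
    · -- mass
      intro l
      show ρ ≤ (τ (φ (n₁ + n₂) (toC (hl l) * toC (hl l)))).re
      have e6 : toC (hl l) * toC (hl l) = toC ((hl l) ^ 2) := by
        ext p
        show ((hl l p : ℝ) : ℂ) * ((hl l p : ℝ) : ℂ) = (((hl l ^ 2) p : ℝ) : ℂ)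
        rw [ContinuousMap.pow_apply]
        push_cast
        ring
      rw [e6, φn]
      have e7 : (fun x : ℝ => ((hl l) ^ 2) (γ x)) = fun x => (hl l (γ x)) ^ 2 := by
        funext x
        rw [ContinuousMap.pow_apply]
      rw [e7]
      have h7 := h6 (((hl l) ^ 2).comp γ) hu1 hu2
      have e8 : (fun x : ℝ => (((hl l) ^ 2).comp γ) x) = fun x => (hl l (γ x)) ^ 2 := by
        funext x
        rw [ContinuousMap.comp_apply, ContinuousMap.pow_apply]
      rw [e8] at h7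
      have h8 := hc3 l A hA01.1 hA01.2 hκ
      have hg01 : ∀ p, 0 ≤ ((hl l) ^ 2) p ∧ ((hl l) ^ 2) p ≤ 1 := by
        intro p
        rw [ContinuousMap.pow_apply]
        refine ⟨sq_nonneg _, ?_⟩
        rw [← hl1 p]
        exact Finset.single_le_sum (f := fun l => (hl l p) ^ 2) (fun i _ => sq_nonneg _)
          (Finset.mem_univ l)
      have h9 := hMASS d R hR c h θ η hcell γ hγ ((hl l) ^ 2) ρ hρ.le hg01 (fun p q hpq => by
        rw [ContinuousMap.pow_apply, ContinuousMap.pow_apply]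
        exact hlu l p q hpq)
      have h10 := hlint l
      have e9 : ∫ p, (hl l p) ^ 2 = ∫ p, ((hl l) ^ 2) p := by
        congr 1
      have e10 : ∫ p, (((hl l) ^ 2).comp γ) (h p) = ∫ p, ((hl l) ^ 2) (γ (h p)) := by
        congr 1
      have h11 : (τ (cfc (fun x : ℝ => (hl l (γ x)) ^ 2) A)).re =
          ∫ p, ((hl l) ^ 2) (γ (h p)) := by
        rw [h7, Complex.ofReal_re, e10]
      have h12 : (τ (cfc (fun x : ℝ => (hl l (γ x)) ^ 2) A)).re -
          (τ (cfc (fun x : ℝ => (hl l (γ x)) ^ 2) T')).re ≤ ρ := by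
        rw [← Complex.sub_re, ← map_sub]
        exact (Complex.re_le_norm _).trans ((hst.norm_le_n2 _).trans h8)
      rw [e9] at h10
      linarith
  · intro f
    show φ 0 f = u * ι f * star u
    rw [φ1 0 (Nat.zero_le _)]
    have : ((0 : ℕ) : ℝ) / n₁ = 0 := by simp
    rw [this]
    exact p2 f
  · intro m
    exact φn (cR m)

end Pool.Agent.FT
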