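import Pool.Agent.Lib.FT.SpecE

/-!
# C44, (E14) First stage of the path
-/

set_option autoImplicit false

open MeasureTheory

noncomputable section

namespace Pool.Agent.FT

/-- the homotopy `r_t` of the cube -/
private def rt {d : ℕ} (h : C(Cube d, ℝ)) (γ : C(ℝ, Cube d)) (t : ℝ) : C(Cube d, Cube d) :=
  ⟨fun p m => Set.projIcc (0 : ℝ) 1 zero_le_one
      ((1 - t) * (p m : ℝ) + t * (γ (h p) m : ℝ)), by
    refine continuous_pi (fun m => ?_)
    refine continuous_projIcc.comp ?_
    have h1 : Continuous (fun p : Cube d => (γ (h p) m : ℝ)) := by fun_prop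
    fun_prop⟩

private theorem rt_apply {d : ℕ} (h : C(Cube d, ℝ)) (γ : C(ℝ, Cube d)) (t : ℝ) (p : Cube d)
    (m : Fin d) (h0 : 0 ≤ t) (h1 : t ≤ 1) :
    ((rt h γ t p m : unitInterval) : ℝ) = (1 - t) * (p m : ℝ) + t * (γ (h p) m : ℝ) := by
  have a0 := (p m).2.1
  have a1 := (p m).2.2
  have b0 := (γ (h p) m).2.1
  have b1 := (γ (h p) m).2.2
  have hm : (1 - t) * (p m : ℝ) + t * (γ (h p) m : ℝ) ∈ Set.Icc (0 : ℝ) 1 := by
    constructor
    · have := mul_nonneg (sub_nonneg.mpr h1) a0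
      have := mul_nonneg h0 b0
      linarith
    · have := mul_le_mul_of_nonneg_left a1 (sub_nonneg.mpr h1)
      have := mul_le_mul_of_nonneg_left b1 h0
      linarith
  have : rt h γ t p m = ⟨_, hm⟩ := Set.projIcc_of_mem zero_le_one hm
  rw [this]

private theorem rt_zero {d : ℕ} (h : C(Cube d, ℝ)) (γ : C(ℝ, Cube d)) (p : Cube d) :
    rt h γ 0 p = p := by
  funext m
  apply Subtype.ext
  rw [rt_apply h γ 0 p m le_rfl zero_le_one]
  ring

private theorem rt_one {d : ℕ} (h : C(Cube d, ℝ)) (γ : C(ℝ, Cube d)) (p : Cube d) :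
    rt h γ 1 p = γ (h p) := by
  funext m
  apply Subtype.ext
  rw [rt_apply h γ 1 p m zero_le_one le_rfl]
  ring

private theorem toC_sub {X : Type} [TopologicalSpace X] (f g : C(X, ℝ)) :
    toC (f - g) = toC f - toC g := by
  ext p
  simp [toC]

private theorem toC_add' {X : Type} [TopologicalSpace X] (f g : C(X, ℝ)) :
    toC (f + g) = toC f + toC g := by
  ext p
  simp [toC]

private theorem toC_mul' {X : Type} [TopologicalSpace X] (f g : C(X, ℝ)) :
    toC (f * g) = toC f * toC g := by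
  ext p
  simp [toC]

/-- conjugation of `ι` by a unitary -/
private def conjI {d : ℕ} {D : Type} [CStarAlgebra D] (ι : C(Cube d, ℂ) →⋆ₐ[ℂ] D) (u : D)
    (h1 : star u * u = 1) (h2 : u * star u = 1) : C(Cube d, ℂ) →⋆ₐ[ℂ] D :=
  ((Unitary.conjStarAlgAut ℂ D ⟨u, ⟨h1, h2⟩⟩ : D ≃⋆ₐ[ℂ] D) : D →⋆ₐ[ℂ] D).comp ι

private theorem conjI_apply {d : ℕ} {D : Type} [CStarAlgebra D] (ι : C(Cube d, ℂ) →⋆ₐ[ℂ] D) (u : D)
    (h1 : star u * u = 1) (h2 : u * star u = 1) (f : C(Cube d, ℂ)) :
    conjI ι u h1 h2 f = u * ι f * star u := rfl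

/-- clamping -/
private def clampR (r x : ℝ) : ℝ := max (-r) (min r x)

private theorem clamp_abs {r : ℝ} (hr : 0 ≤ r) (x : ℝ) : |clampR r x| ≤ r := by
  unfold clampR
  rw [abs_le]
  constructor
  · exact le_max_left _ _
  · exact max_le (by linarith) (min_le_left _ _)

private theorem clamp_eq {r x : ℝ} (hx : |x| ≤ r) : clampR r x = x := by
  unfold clampR
  rw [abs_le] at hx
  rw [min_eq_right hx.2, max_eq_right hx.1]

private theorem clamp_sub {r : ℝ} (hr : 0 ≤ r) (x : ℝ) (hx : |x| ≤ 1) : |x - clampR r x| ≤ 1 := by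
  unfold clampR
  rw [abs_le] at hx ⊢
  rcases le_total r x with h | h
  · rw [min_eq_left h, max_eq_right (by linarith)]
    constructor <;> linarith
  · rw [min_eq_right h]
    rcases le_total (-r) x with h' | h'
    · rw [max_eq_right h']
      constructor <;> linarith
    · rw [max_eq_left h']
      constructor <;> linarith

private theorem int_cont' {d : ℕ} (f : C(Cube d, ℝ)) :
    Integrable (fun p => f p) (volume : Measure (Cube d)) :=
  f.continuous.integrable_of_hasCompactSupport (μ := (volume : Measure (Cube d)))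
    (HasCompactSupport.of_compactSpace _)

theorem pST1 (hC : S_CFI) : S_ST1 := by
  obtain ⟨c1, c2, c3, c4, c5, c6⟩ := hC
  intro d R hR c h θ η hcell γ hγ D _ _ _ τ ι v hS E u hιE huE hu1 hu2
  set Ψ := conjI ι u hu1 hu2 with hΨ
  have hΨa : ∀ f, Ψ f = u * ι f * star u := fun f => conjI_apply ι u hu1 hu2 f
  have hmemE : ∀ f, Ψ f ∈ E := by
    intro f
    rw [hΨa]
    exact mul_mem (mul_mem huE (hιE ⟨f, rfl⟩)) (star_mem huE)
  have hA : u * ι (toC h) * star u = Ψ (toC h) := (hΨa _).symm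
  have hRpos : (0 : ℝ) ≤ 1 / (R : ℝ) := by positivity
  have habs : ∀ (p : Cube d) (m : Fin d), |(p m : ℝ) - (γ (h p) m : ℝ)| ≤ 1 := by
    intro p m
    have a0 := (p m).2.1
    have a1 := (p m).2.2
    have b0 := (γ (h p) m).2.1
    have b1 := (γ (h p) m).2.2
    rw [abs_le]
    constructor <;> linarith
  refine ⟨fun t => Ψ.comp (ContinuousMap.compStarAlgHom' ℂ ℂ (rt h γ t)), ?_, ?_, ?_, ?_, ?_⟩
  · intro t f
    exact hmemE _
  · intro f
    have : f.comp (rt h γ 0) = f := by
      ext p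
      simp [rt_zero]
    change Ψ (f.comp (rt h γ 0)) = _
    rw [this, hΨa]
  · intro f
    have : (toC f).comp (rt h γ 1) = toC ((f.comp γ).comp h) := by
      ext p
      simp [rt_one, toC]
    change Ψ ((toC f).comp (rt h γ 1)) = _
    rw [this, hA]
    exact (c1 d D Ψ h (f.comp γ)).symm
  · intro s t hs0 hs1 ht0 ht1 m
    change ‖Ψ ((xc m).comp (rt h γ s)) - Ψ ((xc m).comp (rt h γ t))‖ ≤ _
    have e1 : (xc m).comp (rt h γ s) - (xc m).comp (rt h γ t)
        = toC ((cR m).comp (rt h γ s) - (cR m).comp (rt h γ t)) := by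
      ext p
      simp [xc, toC]
    rw [← map_sub, e1]
    refine (c4 d D Ψ _).2.2.2 _ (fun p => ?_)
    have e2 : ((cR m).comp (rt h γ s) - (cR m).comp (rt h γ t)) p
        = (t - s) * ((p m : ℝ) - (γ (h p) m : ℝ)) := by
      change ((rt h γ s p m : unitInterval) : ℝ) - ((rt h γ t p m : unitInterval) : ℝ) = _
      rw [rt_apply h γ s p m hs0 hs1, rt_apply h γ t p m ht0 ht1]
      ring
    rw [e2, abs_mul, abs_sub_comm t s]
    exact mul_le_of_le_one_right (abs_nonneg _) (habs p m)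
  · intro t ht0 ht1 m
    have hmax : Continuous (fun x : ℝ => clampR (1 / (R : ℝ)) x) := by
      unfold clampR
      fun_prop
    -- the function `e`
    let e : C(Cube d, ℝ) := cR m - (cR m).comp (γ.comp h)
    let e1 : C(Cube d, ℝ) := ⟨fun p => (1 - t) * clampR (1 / (R : ℝ)) (e p), by fun_prop⟩
    let e2 : C(Cube d, ℝ) := ⟨fun p => (1 - t) * (e p - clampR (1 / (R : ℝ)) (e p)), by fun_prop⟩
    have he : ∀ p, e p = (p m : ℝ) - (γ (h p) m : ℝ) := fun p => rfl
    refine ⟨Ψ (toC e1), Ψ (toC e2), ?_, ?_, hmemE _, (c4 d D Ψ _).1, ?_⟩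
    · rw [hA]
      have h1 := c1 d D Ψ h ((cR m).comp γ)
      have h2 : cfc (fun x : ℝ => ((γ x m : unitInterval) : ℝ)) (Ψ (toC h))
          = Ψ (toC (((cR m).comp γ).comp h)) := h1
      rw [h2]
      change Ψ ((xc m).comp (rt h γ t)) - _ = _
      rw [← map_sub, ← map_add]
      congr 1
      have e3 : (xc m).comp (rt h γ t) = toC ((cR m).comp (rt h γ t)) := by
        ext p
        simp [xc, toC]
      rw [e3, ← toC_sub, ← toC_add']
      congr 1
      ext p
      change ((rt h γ t p m : unitInterval) : ℝ) - (γ (h p) m : ℝ)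
        = (1 - t) * clampR (1 / (R : ℝ)) (e p) + (1 - t) * (e p - clampR (1 / (R : ℝ)) (e p))
      rw [rt_apply h γ t p m ht0 ht1, he]
      ring
    · refine (c4 d D Ψ _).2.2.2 _ (fun p => ?_)
      change |(1 - t) * clampR (1 / (R : ℝ)) (e p)| ≤ _
      rw [abs_mul, abs_of_nonneg (by linarith)]
      have := clamp_abs hRpos (e p)
      calc (1 - t) * |clampR (1 / (R : ℝ)) (e p)| ≤ 1 * (1 / (R : ℝ)) :=
            mul_le_mul (by linarith) this (abs_nonneg _) zero_le_one
        _ = _ := one_mul _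
    · rw [hS.tr.state.n2_sq, (c4 d D Ψ _).1, ← map_mul, ← toC_mul', hΨa, hS.tr.conj hu1, hS.leb]
      have h1 : (∫ x, (toC (e2 * e2)) x) = ((∫ x, (e2 * e2) x : ℝ) : ℂ) := integral_ofReal
      rw [h1, Complex.ofReal_re]
      refine le_trans (integral_mono (int_cont' (e2 * e2)) (int_cont' θ) (fun p => ?_)) hcell.int
      change ((1 - t) * (e p - clampR (1 / (R : ℝ)) (e p)))
        * ((1 - t) * (e p - clampR (1 / (R : ℝ)) (e p))) ≤ θ p
      by_cases ht : θ p < 1
      · obtain ⟨j, hj, hj'⟩ := hcell.good p ht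
        have hγj : γ (h p) = c j := by rw [hj]; exact hγ j
        have h3 : |e p| ≤ 1 / (R : ℝ) := by
          rw [he, hγj]
          exact hj' m
        rw [clamp_eq h3, sub_self, mul_zero, mul_zero]
        exact hcell.θ0 p
      · have h3 := clamp_sub hRpos (e p) (habs p m)
        have h4 : |(1 - t) * (e p - clampR (1 / (R : ℝ)) (e p))| ≤ 1 := by
          rw [abs_mul, abs_of_nonneg (by linarith : (0 : ℝ) ≤ 1 - t)]
          calc (1 - t) * |e p - clampR (1 / (R : ℝ)) (e p)| ≤ 1 * 1 :=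
                mul_le_mul (by linarith) h3 (abs_nonneg _) zero_le_one
            _ = 1 := one_mul _
        have h5 : ((1 - t) * (e p - clampR (1 / (R : ℝ)) (e p)))
            * ((1 - t) * (e p - clampR (1 / (R : ℝ)) (e p))) ≤ 1 := by
          rw [← abs_mul_abs_self]
          exact mul_le_one₀ h4 (abs_nonneg _) h4
        have h6 : 1 ≤ θ p := not_lt.mp ht
        linarith

end Pool.Agent.FT
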