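import Pool.Agent.Lib.FT.SpecE

/-!
# C44, (E17) THE MAIN CLAIM (STAR)
-/

set_option autoImplicit false

open MeasureTheory

noncomputable section

namespace Pool.Agent.FT

private theorem star_fin_min {n : ℕ} (κ : Fin n → ℝ) (h : ∀ i, 0 < κ i) :
    ∃ κ₀ : ℝ, 0 < κ₀ ∧ ∀ i, κ₀ ≤ κ i := by
  by_cases hn : Nonempty (Fin n)
  · obtain ⟨i₀, hi₀⟩ := Finite.exists_min κ
    exact ⟨κ i₀, h i₀, hi₀⟩
  · exact ⟨1, one_pos, fun i => (hn ⟨i⟩).elim⟩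

private theorem star_exists_nat (e : ℝ) (he : 0 < e) : ∃ n : ℕ, 1 ≤ n ∧ 1 / (n : ℝ) ≤ e := by
  obtain ⟨n, hn⟩ := exists_nat_gt (1 / e)
  have h1 : (0 : ℝ) < 1 / e := by positivity
  have hn0 : (0 : ℝ) < n := h1.trans hn
  refine ⟨n, ?_, ?_⟩
  · have : 0 < n := by exact_mod_cast hn0
    omega
  · rw [div_le_iff₀ hn0]
    rw [div_lt_iff₀ he] at hn
    linarith

/-- the closed algebra generated by everything contains `PN` -/
private theorem PN_le_GM {d : ℕ} {D : Type} [CStarAlgebra D]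
    (ι : C(Fin d → unitInterval, ℂ) →⋆ₐ[ℂ] D) (v : ℕ → D) (N : ℕ) : PN ι v N ≤ GM ι v 0 := by
  unfold PN GM
  apply StarSubalgebra.topologicalClosure_mono
  refine sup_le_sup_left ?_ _
  refine StarAlgebra.adjoin_mono ?_
  rintro x ⟨k, -, rfl⟩
  exact ⟨k, Nat.zero_le _, rfl⟩

private theorem v_mem_GM {d : ℕ} {D : Type} [CStarAlgebra D]
    (ι : C(Fin d → unitInterval, ℂ) →⋆ₐ[ℂ] D) (v : ℕ → D) (k : ℕ) : v k ∈ GM ι v 0 := by
  unfold GM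
  apply StarSubalgebra.le_topologicalClosure
  have h1 : StarAlgebra.adjoin ℂ {x | ∃ k, 0 ≤ k ∧ x = v k} ≤
    ι.range ⊔ StarAlgebra.adjoin ℂ {x | ∃ k, 0 ≤ k ∧ x = v k} := le_sup_right
  exact h1 (StarAlgebra.subset_adjoin ℂ _ ⟨k, Nat.zero_le _, rfl⟩)

private theorem range_le_PN {d : ℕ} {D : Type} [CStarAlgebra D]
    (ι : C(Fin d → unitInterval, ℂ) →⋆ₐ[ℂ] D) (v : ℕ → D) (N : ℕ) : ι.range ≤ PN ι v N := by
  unfold PN
  exact le_sup_left.trans (StarSubalgebra.le_topologicalClosure _)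

private theorem PN_closed {d : ℕ} {D : Type} [CStarAlgebra D]
    (ι : C(Fin d → unitInterval, ℂ) →⋆ₐ[ℂ] D) (v : ℕ → D) (N : ℕ) :
    IsClosed (PN ι v N : Set D) := by
  unfold PN
  exact StarSubalgebra.isClosed_topologicalClosure _

private theorem WA_le_GM {d : ℕ} {D : Type} [CStarAlgebra D]
    (ι : C(Fin d → unitInterval, ℂ) →⋆ₐ[ℂ] D) (v : ℕ → D) (N : ℕ) :
    (WA (PN ι v N) (fun j => v (N + j))).topologicalClosure ≤ GM ι v 0 := by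
  refine StarSubalgebra.topologicalClosure_minimal ?_ ?_
  · unfold WA
    rw [StarAlgebra.adjoin_le_iff]
    intro x hx
    rcases hx with hx | ⟨j, rfl⟩
    · exact PN_le_GM ι v N hx
    · exact v_mem_GM ι v _
  · unfold GM
    exact StarSubalgebra.isClosed_topologicalClosure _

/-- uniform continuity of finitely many continuous functions on the cube -/
private theorem star_unif {d L : ℕ} (f : Fin L → C(Cube d, ℝ)) (ρ : ℝ) (hρ : 0 < ρ) :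
    ∃ e : ℝ, 0 < e ∧ ∀ l (p q : Cube d), (∀ m, |(p m : ℝ) - (q m : ℝ)| ≤ e) →
      |f l p - f l q| ≤ ρ := by
  have h1 : ∀ l, ∃ e : ℝ, 0 < e ∧ ∀ p q : Cube d, dist p q < e → |f l p - f l q| < ρ := by
    intro l
    have hu : UniformContinuous (f l) := CompactSpace.uniformContinuous_of_continuous (f l).continuous
    rw [Metric.uniformContinuous_iff] at hu
    obtain ⟨e, he, h⟩ := hu ρ hρ
    refine ⟨e, he, fun p q hpq => ?_⟩
    have := h hpq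
    rwa [Real.dist_eq] at this
  choose e he h using h1
  obtain ⟨e₀, he₀, h₀⟩ := star_fin_min e he
  refine ⟨e₀ / 2, by positivity, fun l p q hpq => ?_⟩
  refine (h l p q ?_).le
  have h2 : dist p q ≤ e₀ / 2 := by
    rw [dist_pi_le_iff (by positivity)]
    intro m
    have := hpq m
    rw [Subtype.dist_eq, Real.dist_eq]
    exact this
  have := h₀ l
  linarith

private theorem star_ctn (hCTN : S_CTN) {n : ℕ} (F : Fin n → ℝ → ℝ) (hF : ∀ i, Continuous (F i))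
    (ε : ℝ) (hε : 0 < ε) : ∃ κ : ℝ, 0 < κ ∧ ∀ i,
    ∀ (D : Type) [CStarAlgebra D] [PartialOrder D] [StarOrderedRing D] (τ : D →ₗ[ℂ] ℂ), IsFTrace τ →
      ∀ A B : D, 0 ≤ A → A ≤ 1 → 0 ≤ B → B ≤ 1 →
        (n2 τ (A - B) ≤ κ → n2 τ (cfc (F i) A - cfc (F i) B) ≤ ε) ∧
        (‖A - B‖ ≤ κ → ‖cfc (F i) A - cfc (F i) B‖ ≤ ε) := by
  choose κ hκ h using fun i => hCTN (F i) (hF i) ε hε
  obtain ⟨κ₀, hκ₀, h₀⟩ := star_fin_min κ hκ
  refine ⟨κ₀, hκ₀, fun i D _ _ _ τ hτ A B h1 h2 h3 h4 => ?_⟩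
  obtain ⟨h5, h6⟩ := h i D τ hτ A B h1 h2 h3 h4
  exact ⟨fun h7 => h5 (h7.trans (h₀ i)), fun h7 => h6 (h7.trans (h₀ i))⟩

theorem pSTAR (hGSL : S_GSL) (hHAT : S_HAT) (hCELL : S_CELL) (hGAM : S_GAM) (hCTN : S_CTN)
    (hAG : S_AG) (hPATH : S_PATH) (hPN : S_PN) (hCFI : S_CFI) : S_STAR := by
  intro d D _ τ ι v hS ε hε
  let _ : PartialOrder D := CStarAlgebra.spectralOrder D
  have _ : StarOrderedRing D := CStarAlgebra.spectralOrderedRing D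
  obtain ⟨C, hC, hG⟩ := hGSL
  -- epsilon prime
  obtain ⟨ε', hε', hε1, hε2⟩ : ∃ ε' : ℝ, 0 < ε' ∧ ε' ≤ 1 ∧ C * ε' ≤ ε := by
    refine ⟨min 1 (ε / C), lt_min one_pos (by positivity), min_le_left _ _, ?_⟩
    calc C * min 1 (ε / C) ≤ C * (ε / C) := mul_le_mul_of_nonneg_left (min_le_right _ _) hC.le
      _ = ε := by field_simp
  obtain ⟨L, hl, z, ρ, hρ, hl0, hlsq, hlz, hlint⟩ := hHAT d ε' hε'
  -- R
  obtain ⟨e, he, hunif⟩ := star_unif (fun l => hl l ^ 2) ρ hρ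
  obtain ⟨R, hR1, hR2⟩ := star_exists_nat (min ε' e) (lt_min hε' he)
  have hRε : 1 / (R : ℝ) ≤ ε' := hR2.trans (min_le_left _ _)
  have hRe : 1 / (R : ℝ) ≤ e := hR2.trans (min_le_right _ _)
  obtain ⟨c, hc⟩ := hCELL d R hR1
  have hK : 1 ≤ R ^ d := Nat.one_le_pow _ _ hR1
  obtain ⟨γ, hγ⟩ := hGAM d (R ^ d) c hK
  -- n₁, n₂
  obtain ⟨n₁, hn1, hn1'⟩ := star_exists_nat ε' hε'
  have hγc : ∀ m : Fin d, Continuous (fun x : ℝ => ((γ x m : unitInterval) : ℝ)) := by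
    intro m
    fun_prop
  obtain ⟨κ₂, hκ₂, hk2⟩ := star_ctn hCTN (fun m : Fin d => fun x : ℝ => ((γ x m : unitInterval) : ℝ))
    hγc ε' hε'
  obtain ⟨n₂, hn2, hn2'⟩ := star_exists_nat κ₂ hκ₂
  -- δ
  obtain ⟨δ, hδ, hGδ⟩ := hG d (n₁ + n₂) L ρ ε' hρ hε' hε1
  -- κ₁
  obtain ⟨κ₃, hκ₃, hk3⟩ := star_ctn hCTN (fun m : Fin d => fun x : ℝ => ((γ x m : unitInterval) : ℝ))
    hγc (δ / 2) (by positivity)
  have hlc : ∀ l : Fin L, Continuous (fun x : ℝ => (hl l (γ x)) ^ 2) := by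
    intro l
    fun_prop
  obtain ⟨κ₄, hκ₄, hk4⟩ := star_ctn hCTN (fun l : Fin L => fun x : ℝ => (hl l (γ x)) ^ 2)
    hlc ρ hρ
  set κ₁ := min κ₃ κ₄ with hκ₁
  have hκ₁pos : 0 < κ₁ := lt_min hκ₃ hκ₄
  -- η
  obtain ⟨η₀, hη₀, hAG'⟩ := hAG d R hR1 κ₁ hκ₁pos
  obtain ⟨η, hη, hη1, hη2, hη3⟩ : ∃ η : ℝ, 0 < η ∧ η ≤ η₀ ∧ η ≤ ρ ∧ Real.sqrt η ≤ δ / 2 := by
    refine ⟨min η₀ (min ρ ((δ / 2) ^ 2)), lt_min hη₀ (lt_min hρ (by positivity)), min_le_left _ _,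
      (min_le_right _ _).trans (min_le_left _ _), ?_⟩
    rw [Real.sqrt_le_iff]
    exact ⟨by positivity, (min_le_right _ _).trans (min_le_right _ _)⟩
  obtain ⟨h, θ, hcell⟩ := hc η hη
  obtain ⟨N, u, huP, hu1, hu2, T', hT'P, hT'v, hT'0, hT'1, hAT⟩ :=
    hAG' c h θ η hη1 hcell D τ ι v hS
  obtain ⟨φ, Y, X, hGD, hφ0, hφl⟩ := hPATH d R L n₁ n₂ ε' ρ δ κ₁ η c h θ γ hl z hR1 hRε hn1 hn1' hn2
    hρ hδ hη.le hη3 hη2 hcell hγ hl0 hlsq hlz hlint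
    (fun l p q hpq => hunif l p q (fun m => (hpq m).trans hRe))
    D τ ι v hS (PN ι v (N + 2)) u T' (PN_closed ι v _) (range_le_PN ι v _) huP hu1 hu2 hT'P
    hT'0 hT'1
    (fun m B B' h1 h2 h3 h4 h5 => (hk2 m D τ hS.tr B B' h1 h2 h3 h4).2 (h5.trans hn2'))
    (fun m B h1 h2 h5 => (hk3 m D τ hS.tr B T' h1 h2 hT'0 hT'1).1 (h5.trans (min_le_left _ _)))
    (fun l B h1 h2 h5 => (hk4 l D τ hS.tr B T' h1 h2 hT'0 hT'1).1 (h5.trans (min_le_right _ _)))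
    hAT
  obtain ⟨u', hu'W, hu'1, hu'2, hu'3⟩ := hGδ D τ (PN ι v (N + 2)) (fun j => v (N + 2 + j)) φ hl z Y X
    hS.tr (hPN d D τ ι v hS (N + 2)) hGD
  refine ⟨u' * u, mul_mem (WA_le_GM ι v (N + 2) hu'W) (PN_le_GM ι v _ huP), ?_, ?_,
    fun m => cfc (fun x : ℝ => ((γ x m : unitInterval) : ℝ)) T', ?_, ?_⟩
  · rw [star_mul, mul_assoc, ← mul_assoc (star u'), hu'1, one_mul, hu1]
  · rw [star_mul, mul_assoc, ← mul_assoc u, hu2, one_mul, hu'2]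
  · intro m
    exact hCFI.2.2.1 D _ T' _ (hγc m) (StarSubalgebra.isClosed_topologicalClosure _) hT'v
      (IsSelfAdjoint.of_nonneg hT'0).star_eq
  · intro m
    have h1 := hu'3 m
    rw [hφ0, hφl] at h1
    have h2 : u' * u * ι (xc m) * star (u' * u) = u' * (u * ι (xc m) * star u) * star u' := by
      rw [star_mul]
      simp only [mul_assoc]
    rw [h2]
    exact h1.trans hε2

end Pool.Agent.FT
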