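import Pool.Agent.Lib.FT.SpecE

/-!
# C44, block E10: the element `T'`
-/

set_option autoImplicit false

open MeasureTheory

noncomputable section

namespace Pool.Agent.FT

/-- (E10) The element `T'`. -/
theorem pTP (hFR : S_FR) (hGST : S_GST) (hCFI : S_CFI) : S_TP := by
  intro D _ _ _ τ hτ E T₀ hE hT₀ h0 h1 hmom K f w hK hw hf hf01
  obtain ⟨cr, rbd, cFp, cFm, cpsi, bFp, bFm, Fp0, Fp1, Fm1, Fm0, tt, psi0, psi2, FmFp, -, tjb⟩ :=
    hFR K hK
  have hb : Monotone (fun r => 1 - f r) := by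
    intro r s hrs
    have := hf hrs
    simp only
    linarith
  have hb01 : ∀ r, 0 ≤ (fun r => 1 - f r) r ∧ (fun r => 1 - f r) r ≤ 1 := by
    intro r
    have := hf01 r
    simp only
    constructor <;> linarith [this.1, this.2]
  obtain ⟨cG, G01, Gint, Gpsi⟩ := hGST K hK (fun r => 1 - f r) w hw hb hb01
  set G := Gst K (fun r => 1 - f r) w with hGdef
  have hsa : IsSelfAdjoint T₀ := IsSelfAdjoint.of_nonneg h0
  have hcomp : ∀ F : ℝ → ℝ, Continuous F → cfc F (cfc G T₀) = cfc (F ∘ G) T₀ := by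
    intro F hF
    exact (cfc_comp F G T₀ (hg := hF.continuousOn) (hf := cG.continuousOn)).symm
  have htau : ∀ F : ℝ → ℝ, Continuous F →
      τ (cfc F (cfc G T₀)) = ((∫ x in (0 : ℝ)..1, F (G x) : ℝ) : ℂ) := by
    intro F hF
    rw [hcomp F hF]
    exact hmom (F ∘ G) (hF.comp cG)
  refine ⟨cfc G T₀, hCFI.2.2.1 D E T₀ G cG hE hT₀ hsa.star_eq, ?_, ?_, ?_, ?_⟩
  · exact cfc_nonneg (fun x _ => (G01 x).1)
  · exact cfc_le_one _ _ (fun x _ => (G01 x).2)
  · intro r hr
    obtain ⟨g1, g2, g3⟩ := Gint r hr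
    have iFp : IntervalIntegrable (fun x => Fp K r (G x)) volume 0 1 :=
      ((cFp r).comp cG).intervalIntegrable _ _
    have iFm : IntervalIntegrable (fun x => Fm K r (G x)) volume 0 1 :=
      ((cFm r).comp cG).intervalIntegrable _ _
    rw [map_add, htau _ (cFm r), htau _ (cFp r)]
    rw [intervalIntegral.integral_add iFm iFp] at g3
    refine ⟨?_, ?_⟩
    · rw [Complex.add_re, Complex.ofReal_re, Complex.ofReal_re]
      exact g3
    · rw [Complex.ofReal_re, abs_le]
      constructor <;> linarith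
  · rw [hτ.state.n2_sq]
    have hsa2 : IsSelfAdjoint (cfc (psi K) (cfc G T₀)) := cfc_predicate _ _
    rw [hsa2.star_eq, ← cfc_mul (psi K) (psi K) (cfc G T₀) cpsi.continuousOn cpsi.continuousOn,
      htau (fun x => psi K x * psi K x) (cpsi.mul cpsi), Complex.ofReal_re]
    have h3 : ∫ x in (0 : ℝ)..1, psi K (G x) * psi K (G x)
        = ∫ x in (0 : ℝ)..1, (psi K (G x)) ^ 2 := by
      congr 1
      funext x
      rw [sq]
    rw [h3]
    exact Gpsi

end Pool.Agent.FT
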