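import Pool.Agent.Lib.FT.SpecE

/-!
# C44, block E11: thresholds of `A = u ι(h) u*`
-/

set_option autoImplicit false

open MeasureTheory

noncomputable section

namespace Pool.Agent.FT

private theorem tt_integrable {d : ℕ} {f : Cube d → ℝ} (hf : Continuous f) :
    Integrable f (volume : Measure (Cube d)) :=
  hf.integrable_of_hasCompactSupport (HasCompactSupport.of_compactSpace f)

/-- (E11) Thresholds of `A`. -/
theorem pTT (hFR : S_FR) (hCFI : S_CFI) : S_TT := by
  intro d R hR c h θ η hc D _ _ _ τ ι v hS u hu1 hu2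
  have hK : 1 ≤ R ^ d := Nat.one_le_pow _ _ hR
  obtain ⟨cr, rbd, cFp, cFm, cpsi, bFp, bFm, Fp0, Fp1, Fm1, Fm0, tt, psi0, psi2, FmFp, Fpa, tjb⟩ :=
    hFR (R ^ d) hK
  set K := R ^ d with hKdef
  have hval : ∀ F : ℝ → ℝ, Continuous F →
      τ (cfc F (u * ι (toC h) * star u)) = ((∫ p, F (h p) : ℝ) : ℂ) := by
    intro F hF
    exact hCFI.2.2.2.2.2 d D τ ι v hS u h ⟨F, hF⟩ hu1 hu2
  have hint : ∀ F : ℝ → ℝ, Continuous F → Integrable (fun p : Cube d => F (h p)) :=
    fun F hF => tt_integrable (hF.comp h.continuous)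
  have hθint : Integrable (fun p : Cube d => θ p) := tt_integrable θ.continuous
  have hgood : ∀ p, θ p < 1 → ∃ j, j < K ∧ h p = tj K j := by
    intro p hp
    obtain ⟨j, hj, -⟩ := hc.good p hp
    exact ⟨j, j.2, hj⟩
  refine ⟨?_, ?_, ?_, ?_, ?_⟩
  · intro r
    rw [map_add, hval _ (cFm r), hval _ (cFp r), Complex.add_re, Complex.ofReal_re,
      Complex.ofReal_re, ← integral_add (hint _ (cFm r)) (hint _ (cFp r))]
    have h1 : ∫ p, (1 - θ p) ≤ ∫ p, (Fm K r (h p) + Fp K r (h p)) := by
      apply integral_mono ((integrable_const (1 : ℝ)).sub hθint)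
        ((hint _ (cFm r)).add (hint _ (cFp r)))
      intro p
      have h0 := hc.θ0 p
      have hm := (bFm r (h p)).1
      have hp := (bFp r (h p)).1
      show 1 - θ p ≤ Fm K r (h p) + Fp K r (h p)
      rcases lt_or_ge (θ p) 1 with h3 | h3
      · obtain ⟨j, hj, hh⟩ := hgood p h3
        have := FmFp r j hj
        rw [hh]
        linarith
      · linarith
    rw [integral_sub (integrable_const (1 : ℝ)) hθint] at h1
    have h2 : ∫ _p : Cube d, (1 : ℝ) = 1 := by simp
    rw [h2] at h1
    have := hc.int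
    linarith
  · intro r
    rw [hval _ (cFp r), Complex.ofReal_re]
  · apply antitone_nat_of_succ_le
    intro r
    exact integral_mono (hint _ (cFp (r + 1))) (hint _ (cFp r)) (fun p => Fpa r (h p))
  · intro r
    refine ⟨integral_nonneg (fun p => (bFp r (h p)).1), ?_⟩
    have h1 : ∫ p, Fp K r (h p) ≤ ∫ _p : Cube d, (1 : ℝ) :=
      integral_mono (hint _ (cFp r)) (integrable_const (1 : ℝ)) (fun p => (bFp r (h p)).2)
    have h2 : ∫ _p : Cube d, (1 : ℝ) = 1 := by simp
    rw [h2] at h1
    exact h1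
  · rw [hS.tr.state.n2_sq]
    have hsa2 : IsSelfAdjoint (cfc (psi K) (u * ι (toC h) * star u)) := cfc_predicate _ _
    rw [hsa2.star_eq, ← cfc_mul (psi K) (psi K) (u * ι (toC h) * star u) cpsi.continuousOn
      cpsi.continuousOn, hval (fun x => psi K x * psi K x) (cpsi.mul cpsi), Complex.ofReal_re]
    have h1 : ∫ p, psi K (h p) * psi K (h p) ≤ ∫ p, 4 * θ p := by
      apply integral_mono (hint _ (cpsi.mul cpsi)) (hθint.const_mul 4)
      intro p
      have h0 := hc.θ0 p
      show psi K (h p) * psi K (h p) ≤ 4 * θ p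
      rcases lt_or_ge (θ p) 1 with h3 | h3
      · obtain ⟨j, hj, hh⟩ := hgood p h3
        rw [hh, psi0 j hj]
        linarith
      · have h4 := psi2 (h p) (hc.h0 p) (hc.h1 p)
        have h5 : psi K (h p) * psi K (h p) = |psi K (h p)| * |psi K (h p)| :=
          (abs_mul_abs_self _).symm
        have h6 : |psi K (h p)| * |psi K (h p)| ≤ 2 * 2 :=
          mul_le_mul h4 h4 (abs_nonneg _) (by norm_num)
        rw [h5]
        linarith
    rw [integral_const_mul] at h1
    have := hc.int
    linarith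

end Pool.Agent.FT
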