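import Pool.Agent.Lib.FT.SpecE

/-! # C44, block E: an element with uniform distribution -/

set_option autoImplicit false

open MeasureTheory Polynomial

noncomputable section

namespace Pool.Agent.FT

private theorem uni_cheb {A : Type} [Ring A] [Algebra ℝ A] (U V : A) (h1 : U * V = 1)
    (h2 : V * U = 1) (n : ℕ) :
    aeval ((1 / 2 : ℝ) • (U + V)) (Polynomial.Chebyshev.T ℝ (n : ℤ)) = (1 / 2 : ℝ) • (U ^ n + V ^ n) ∧
    aeval ((1 / 2 : ℝ) • (U + V)) (Polynomial.Chebyshev.T ℝ ((n + 1 : ℕ) : ℤ))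
      = (1 / 2 : ℝ) • (U ^ (n + 1) + V ^ (n + 1)) := by
  induction n with
  | zero =>
    refine ⟨?_, ?_⟩
    · simp only [Nat.cast_zero, Polynomial.Chebyshev.T_zero, map_one, pow_zero]
      rw [← two_smul ℝ (1 : A), smul_smul]
      norm_num
    · simp [Polynomial.Chebyshev.T_one]
  | succ n ih =>
    refine ⟨ih.2, ?_⟩
    have e : ((n + 1 + 1 : ℕ) : ℤ) = (n : ℤ) + 2 := by push_cast; ring
    have e1 : (n : ℤ) + 1 = ((n + 1 : ℕ) : ℤ) := by push_cast; ring
    rw [e, Polynomial.Chebyshev.T_add_two, map_sub, map_mul, map_mul, e1, ih.1, ih.2]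
    have h3 : U * V ^ (n + 1) = V ^ n := by rw [pow_succ', ← mul_assoc, h1, one_mul]
    have h4 : V * U ^ (n + 1) = U ^ n := by rw [pow_succ', ← mul_assoc, h2, one_mul]
    have h5 : (aeval ((1 / 2 : ℝ) • (U + V))) (2 : ℝ[X]) = (2 : ℝ) • (1 : A) := by
      rw [show (2 : ℝ[X]) = C 2 from (map_ofNat C 2).symm, aeval_C, Algebra.algebraMap_eq_smul_one]
    rw [aeval_X, h5]
    simp only [smul_mul_assoc, mul_smul_comm, one_mul, smul_smul]
    rw [add_mul, mul_add, mul_add, h3, h4, ← pow_succ', ← pow_succ']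
    have e2 : (2 : ℝ) * (1 / 2) * (1 / 2) = 1 / 2 := by norm_num
    simp only [smul_add, e2]
    norm_num
    abel

private theorem uni_span (p : ℝ[X]) :
    p ∈ Submodule.span ℝ (Set.range (fun n : ℕ => Polynomial.Chebyshev.T ℝ (n : ℤ))) := by
  set S := Submodule.span ℝ (Set.range (fun n : ℕ => Polynomial.Chebyshev.T ℝ (n : ℤ))) with hS
  have hT : ∀ n : ℕ, Polynomial.Chebyshev.T ℝ (n : ℤ) ∈ S := fun n =>
    Submodule.subset_span ⟨n, rfl⟩
  have hX : ∀ q ∈ S, X * q ∈ S := by
    intro q hq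
    induction hq using Submodule.span_induction with
    | mem x hx =>
      obtain ⟨n, rfl⟩ := hx
      cases n with
      | zero =>
        have := hT 1
        simpa [Polynomial.Chebyshev.T_one, Polynomial.Chebyshev.T_zero] using this
      | succ n =>
        have h2 := Polynomial.Chebyshev.T_add_two ℝ (n : ℤ)
        have e1 : (n : ℤ) + 1 = ((n + 1 : ℕ) : ℤ) := by push_cast; ring
        have e2 : (n : ℤ) + 2 = ((n + 2 : ℕ) : ℤ) := by push_cast; ring
        rw [e1, e2] at h2
        have h3 : X * Polynomial.Chebyshev.T ℝ ((n + 1 : ℕ) : ℤ)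
            = (1 / 2 : ℝ) • (Polynomial.Chebyshev.T ℝ ((n + 2 : ℕ) : ℤ)
              + Polynomial.Chebyshev.T ℝ (n : ℤ)) := by
          rw [h2, sub_add_cancel, mul_assoc, Polynomial.smul_eq_C_mul]
          have : C (1 / 2 : ℝ) * (2 * (X * Polynomial.Chebyshev.T ℝ ((n + 1 : ℕ) : ℤ)))
              = (C (1 / 2 : ℝ) * 2) * (X * Polynomial.Chebyshev.T ℝ ((n + 1 : ℕ) : ℤ)) := by ring
          rw [this]
          have : (C (1 / 2 : ℝ) * 2 : ℝ[X]) = 1 := by
            rw [show (2 : ℝ[X]) = C 2 from (map_ofNat C 2).symm, ← C_mul]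
            norm_num
          rw [this, one_mul]
        change X * Polynomial.Chebyshev.T ℝ ((n + 1 : ℕ) : ℤ) ∈ S
        rw [h3]
        exact S.smul_mem _ (S.add_mem (hT _) (hT _))
    | zero => simp
    | add x y _ _ hx hy => rw [mul_add]; exact S.add_mem hx hy
    | smul a x _ hx => rw [mul_smul_comm]; exact S.smul_mem _ hx
  have hpow : ∀ n : ℕ, (X : ℝ[X]) ^ n ∈ S := by
    intro n
    induction n with
    | zero => have := hT 0; simpa using this
    | succ n ih => rw [pow_succ']; exact hX _ ih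
  rw [Polynomial.as_sum_range_C_mul_X_pow p]
  refine S.sum_mem fun i _ => ?_
  rw [← Polynomial.smul_eq_C_mul]
  exact S.smul_mem _ (hpow i)

private theorem uni_int (n : ℕ) (hn : 1 ≤ n) :
    (∫ x in (0 : ℝ)..1, (Polynomial.Chebyshev.T ℝ (n : ℤ)).eval (Real.cos (Real.pi * x))) = 0 := by
  simp_rw [Polynomial.Chebyshev.T_real_cos]
  have h0 : (n : ℝ) * Real.pi ≠ 0 := by
    have : (n : ℝ) ≠ 0 := by positivity
    exact mul_ne_zero this Real.pi_ne_zero
  have e : ∀ x : ℝ, Real.cos (((n : ℤ) : ℝ) * (Real.pi * x)) = Real.cos (((n : ℝ) * Real.pi) * x) := by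
    intro x; push_cast; rw [mul_assoc]
  simp_rw [e]
  rw [intervalIntegral.integral_comp_mul_left _ h0, integral_cos]
  simp

theorem pUNI : S_UNI := by
  intro D _ _ _ τ hτ E U hE hUE hU1 hU2 hU
  have hst := hτ.state
  have hnt : Nontrivial D := by
    refine ⟨⟨1, 0, fun h => ?_⟩⟩
    have := hst.1
    rw [h, map_zero] at this
    exact zero_ne_one this
  set c : D := (1 / 2 : ℝ) • (U + star U) with hc
  have hcsa : IsSelfAdjoint c := by
    rw [IsSelfAdjoint, hc, star_smul, star_add, star_star, add_comm (star U)]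
    simp
  have hnU : ‖U‖ ≤ 1 := by
    have := CStarRing.norm_star_mul_self (x := U)
    rw [hU1, CStarRing.norm_one] at this
    nlinarith [norm_nonneg U]
  have hnc : ‖c‖ ≤ 1 := by
    rw [hc, norm_smul]
    have h1 : ‖U + star U‖ ≤ 2 := by
      refine (norm_add_le _ _).trans ?_
      rw [norm_star]; linarith
    rw [Real.norm_of_nonneg (by norm_num)]
    linarith
  have hspec : ∀ x ∈ spectrum ℝ c, x ∈ Set.Icc (-1 : ℝ) 1 := by
    intro x hx
    have := spectrum.norm_le_norm_of_mem hx
    rw [Real.norm_eq_abs] at this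
    exact abs_le.mp (this.trans hnc)
  have hcE : c ∈ E := by
    have : c = ((1 / 2 : ℝ) : ℂ) • (U + star U) := by rw [hc, Complex.coe_smul]
    rw [this]
    exact SMulMemClass.smul_mem _ (add_mem hUE (star_mem hUE))
  -- the functional on polynomials
  have hstar : ∀ n : ℕ, 1 ≤ n → τ ((star U) ^ n) = 0 := by
    intro n hn
    rw [← star_pow, hst.map_star, hU n hn, map_zero]
  have hcont : ∀ p : ℝ[X], Continuous fun x : ℝ => p.eval (Real.cos (Real.pi * x)) := by
    intro p
    fun_prop
  have hpoly : ∀ p : ℝ[X], τ (aeval c p)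
      = ((∫ x in (0 : ℝ)..1, p.eval (Real.cos (Real.pi * x)) : ℝ) : ℂ) := by
    intro p
    have hp := uni_span p
    induction hp using Submodule.span_induction with
    | mem x hx =>
      obtain ⟨n, rfl⟩ := hx
      rcases Nat.eq_zero_or_pos n with h0 | h0
      · subst h0
        simp [hst.1]
      · have h1 := (uni_cheb U (star U) hU2 hU1 n).1
        have h2 : τ (aeval c (Polynomial.Chebyshev.T ℝ (n : ℤ))) = 0 := by
          rw [hc, h1]
          have : ((1 / 2 : ℝ) • (U ^ n + star U ^ n)) = ((1 / 2 : ℝ) : ℂ) • (U ^ n + star U ^ n) := by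
            rw [Complex.coe_smul]
          rw [this, map_smul, map_add, hU n h0, hstar n h0]
          simp
        change τ (aeval c (Polynomial.Chebyshev.T ℝ (n : ℤ)))
          = ((∫ x in (0 : ℝ)..1, (Polynomial.Chebyshev.T ℝ (n : ℤ)).eval (Real.cos (Real.pi * x)) : ℝ) : ℂ)
        rw [h2, uni_int n h0]
        simp
    | zero => simp
    | add x y _ _ hx hy =>
      rw [map_add, map_add, hx, hy]
      simp only [eval_add]
      rw [intervalIntegral.integral_add ((hcont x).intervalIntegrable _ _)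
        ((hcont y).intervalIntegrable _ _)]
      push_cast
      rfl
    | smul a x _ hx =>
      rw [map_smul]
      have : a • aeval c x = (a : ℂ) • aeval c x := by rw [Complex.coe_smul]
      rw [this, map_smul, hx]
      simp only [eval_smul, smul_eq_mul]
      rw [intervalIntegral.integral_const_mul]
      push_cast
      rfl
  -- continuous functions
  have hmain : ∀ F : ℝ → ℝ, Continuous F → τ (cfc F c)
      = ((∫ x in (0 : ℝ)..1, F (Real.cos (Real.pi * x)) : ℝ) : ℂ) := by
    intro F hF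
    rw [← sub_eq_zero, ← norm_le_zero_iff]
    refine le_of_forall_pos_le_add fun ε hε => ?_
    obtain ⟨p, hp⟩ := exists_polynomial_near_of_continuousOn (-1) 1 F hF.continuousOn (ε / 2)
      (by positivity)
    have h1 : ‖τ (cfc F c) - τ (aeval c p)‖ ≤ ε / 2 := by
      rw [← map_sub, ← cfc_polynomial p c hcsa]
      refine (hst.norm_le _).trans ?_
      rw [← cfc_sub F p.eval c hF.continuousOn p.continuous.continuousOn]
      refine norm_cfc_le (by positivity) fun x hx => ?_
      have := hp x (hspec x hx)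
      rw [Real.norm_eq_abs, abs_sub_comm]
      exact this.le
    have h2 : ‖((∫ x in (0 : ℝ)..1, p.eval (Real.cos (Real.pi * x)) : ℝ) : ℂ)
        - ((∫ x in (0 : ℝ)..1, F (Real.cos (Real.pi * x)) : ℝ) : ℂ)‖ ≤ ε / 2 := by
      rw [← Complex.ofReal_sub, Complex.norm_real]
      have hFc : Continuous fun x : ℝ => F (Real.cos (Real.pi * x)) := by fun_prop
      rw [← intervalIntegral.integral_sub ((hcont p).intervalIntegrable _ _)
        (hFc.intervalIntegrable _ _)]
      have h3 := intervalIntegral.norm_integral_le_of_norm_le_const (a := (0 : ℝ)) (b := 1)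
        (f := fun x => p.eval (Real.cos (Real.pi * x)) - F (Real.cos (Real.pi * x))) (C := ε / 2)
        (fun x _ => by
          rw [Real.norm_eq_abs]
          exact (hp _ ⟨Real.neg_one_le_cos _, Real.cos_le_one _⟩).le)
      simpa using h3
    rw [hpoly p] at h1
    calc ‖τ (cfc F c) - ((∫ x in (0 : ℝ)..1, F (Real.cos (Real.pi * x)) : ℝ) : ℂ)‖
        = ‖(τ (cfc F c) - ((∫ x in (0 : ℝ)..1, p.eval (Real.cos (Real.pi * x)) : ℝ) : ℂ))
          + (((∫ x in (0 : ℝ)..1, p.eval (Real.cos (Real.pi * x)) : ℝ) : ℂ)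
            - ((∫ x in (0 : ℝ)..1, F (Real.cos (Real.pi * x)) : ℝ) : ℂ))‖ := by
          rw [sub_add_sub_cancel]
      _ ≤ ε / 2 + ε / 2 := (norm_add_le _ _).trans (add_le_add h1 h2)
      _ = 0 + ε := by ring
  have hgc : Continuous fun y : ℝ => Real.arccos y / Real.pi := by
    have := Real.continuous_arccos
    fun_prop
  refine ⟨cfc (fun y : ℝ => Real.arccos y / Real.pi) c, ?_, ?_, ?_, ?_⟩
  · have : IsClosed (E : Set D) := hE
    exact cfc_mem (𝕜' := ℂ) _ hcE
  · exact cfc_nonneg fun x _ => div_nonneg (Real.arccos_nonneg _) Real.pi_pos.le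
  · refine cfc_le_one _ _ fun x _ => ?_
    rw [div_le_one Real.pi_pos]
    exact Real.arccos_le_pi _
  · intro F hF
    have h1 : cfc F (cfc (fun y : ℝ => Real.arccos y / Real.pi) c)
        = cfc (fun y : ℝ => F (Real.arccos y / Real.pi)) c := by
      rw [← cfc_comp' F (fun y : ℝ => Real.arccos y / Real.pi) c hF.continuousOn hgc.continuousOn hcsa]
    rw [h1, hmain (fun y : ℝ => F (Real.arccos y / Real.pi)) (hF.comp hgc)]
    congr 1
    apply intervalIntegral.integral_congr
    intro x hx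
    rw [Set.uIcc_of_le zero_le_one] at hx
    simp only
    rw [Real.arccos_cos (mul_nonneg Real.pi_pos.le hx.1) (by nlinarith [Real.pi_pos, hx.2]),
      mul_div_cancel_left₀ _ Real.pi_ne_zero]

end Pool.Agent.FT
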